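import Mathlib

/-!
Complex projective space, holomorphic maps into it, projective zero loci and the Kobayashi
pseudodistance of a subset of projective space.
-/

namespace Pool.Agent.Work.MP_97b122_ag

open Filter Topology

/-- Complex projective space of dimension `n`. -/
abbrev PS (n : ℕ) : Type := Projectivization ℂ (Fin (n + 1) → ℂ)

/-- The zero locus in projective space of a (homogeneous) polynomial. -/
def zeroLocus {n : ℕ} (F : MvPolynomial (Fin (n + 1)) ℂ) : Set (PS n) :=
  {p | MvPolynomial.eval p.rep F = 0}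

/-- `f` is holomorphic at every point of `U`: near each point of `U` it is the class of a
nowhere vanishing holomorphic vector function. -/
def HolOn {n : ℕ} (f : ℂ → PS n) (U : Set ℂ) : Prop :=
  ∀ z₀ ∈ U, ∃ G : ℂ → Fin (n + 1) → ℂ, AnalyticAt ℂ G z₀ ∧
    ∀ᶠ z in 𝓝 z₀, ∃ h : G z ≠ 0, f z = Projectivization.mk ℂ (G z) h

/-- The Poincare distance on the unit disc. -/
noncomputable def poincare (a b : ℂ) : ℝ :=
  Real.artanh (‖a - b‖ / ‖1 - (starRingEnd ℂ) a * b‖)

/-- `Chain X p q L`: a finite chain of holomorphic discs in `X` joins `p` to `q` and has total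
Poincare length `L`. -/
inductive Chain {n : ℕ} (X : Set (PS n)) : PS n → PS n → ℝ → Prop
  | nil (p : PS n) : Chain X p p 0
  | cons (f : ℂ → PS n) (a b : ℂ) (q : PS n) (L : ℝ) :
      HolOn f (Metric.ball 0 1) → Set.MapsTo f (Metric.ball 0 1) X →
      a ∈ Metric.ball (0 : ℂ) 1 → b ∈ Metric.ball (0 : ℂ) 1 →
      Chain X (f b) q L → Chain X (f a) q (poincare a b + L)

/-- The Kobayashi pseudodistance of `X`: the infimum of the lengths of chains of discs. -/
noncomputable def kobayashiDist {n : ℕ} (X : Set (PS n)) (p q : PS n) : ENNReal :=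
  ⨅ (L : ℝ) (_ : Chain X p q L), ENNReal.ofReal L

/-- `X` is Kobayashi hyperbolic: its Kobayashi pseudodistance separates points. -/
def KobayashiHyperbolic {n : ℕ} (X : Set (PS n)) : Prop :=
  ∀ p ∈ X, ∀ q ∈ X, p ≠ q → 0 < kobayashiDist X p q

end Pool.Agent.Work.MP_97b122_ag
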