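import Mathlib
import Pool.Agent.Work.MP_97b122_ag.Defs

-- merged part: Pool.Agent.Work.MP_97b122_ag.Basic
section
/-!
Curves in projective space given by unit representatives, the projector map, affine charts,
homogeneous forms and the identity principle.
-/

namespace Pool.Agent.Work.MP_97b122_ag

open Filter Topology Asymptotics
open scoped ComplexConjugate

variable {ι : Type} [Fintype ι]

/-- The squared Euclidean norm, as a complex number. -/
noncomputable def nsq (x : ι → ℂ) : ℂ := ∑ k, x k * conj (x k)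

/-- The orthogonal projector onto the line spanned by `x`. -/
noncomputable def proj (x : ι → ℂ) : ι × ι → ℂ := fun p => x p.1 * conj (x p.2) / nsq x

lemma nsq_eq (x : ι → ℂ) : nsq x = ((∑ k, ‖x k‖ ^ 2 : ℝ) : ℂ) := by
  simp [nsq, Complex.mul_conj, Complex.normSq_eq_norm_sq]

lemma sum_sq_pos {x : ι → ℂ} (hx : x ≠ 0) : 0 < ∑ k, ‖x k‖ ^ 2 := by
  obtain ⟨i, hi⟩ := Function.ne_iff.mp hx
  exact Finset.sum_pos' (fun k _ => by positivity)
    ⟨i, Finset.mem_univ _, by have : x i ≠ 0 := hi; positivity⟩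

lemma nsq_ne_zero {x : ι → ℂ} (hx : x ≠ 0) : nsq x ≠ 0 := by
  rw [nsq_eq]; exact_mod_cast (sum_sq_pos hx).ne'

lemma norm_nsq (x : ι → ℂ) : ‖nsq x‖ = ∑ k, ‖x k‖ ^ 2 := by
  rw [nsq_eq, Complex.norm_real, Real.norm_eq_abs, abs_of_nonneg]
  exact Finset.sum_nonneg fun k _ => by positivity

lemma nsq_smul (c : ℂ) (x : ι → ℂ) : nsq (c • x) = c * conj c * nsq x := by
  simp only [nsq, Pi.smul_apply, smul_eq_mul, map_mul, Finset.mul_sum]
  exact Finset.sum_congr rfl fun k _ => by ring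

lemma proj_smul {c : ℂ} (hc : c ≠ 0) (x : ι → ℂ) : proj (c • x) = proj x := by
  funext p
  have hc' : conj c ≠ 0 := by simpa using hc
  simp only [proj, nsq_smul, Pi.smul_apply, smul_eq_mul, map_mul]
  by_cases h : nsq x = 0
  · simp [h]
  · field_simp

lemma contDiff_conj : ContDiff ℝ 1 (fun z : ℂ => conj z) :=
  Complex.conjCLE.contDiff

lemma contDiffAt_proj {x : ι → ℂ} (hx : x ≠ 0) : ContDiffAt ℝ 1 proj x := by
  have hc : ∀ k, ContDiff ℝ 1 (fun y : ι → ℂ => y k) := fun k => contDiff_apply ℝ ℂ k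
  have hcc : ∀ k, ContDiff ℝ 1 (fun y : ι → ℂ => conj (y k)) := fun k => contDiff_conj.comp (hc k)
  have hn : ContDiff ℝ 1 (fun y : ι → ℂ => nsq y) := by
    unfold nsq
    exact ContDiff.sum fun k _ => (hc k).mul (hcc k)
  rw [contDiffAt_pi]
  intro p
  simp only [proj, div_eq_mul_inv]
  exact ((hc p.1).mul (hcc p.2)).contDiffAt.mul (hn.contDiffAt.inv (nsq_ne_zero hx))

lemma proj_diag_ne_zero {x : ι → ℂ} {i : ι} (hi : x i ≠ 0) : proj x (i, i) ≠ 0 := by
  have hx : x ≠ 0 := fun h => hi (by simp [h])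
  have := nsq_ne_zero hx
  simp [proj, hi, this]

lemma ne_zero_of_proj_diag {x : ι → ℂ} {i : ι} (hi : proj x (i, i) ≠ 0) : x i ≠ 0 := by
  intro h; apply hi; simp [proj, h]

lemma proj_ratio {x : ι → ℂ} {i : ι} (hi : x i ≠ 0) (j : ι) :
    proj x (j, i) / proj x (i, i) = (x i)⁻¹ * x j := by
  have hx : x ≠ 0 := fun h => hi (by simp [h])
  have h1 := nsq_ne_zero hx
  have h2 : conj (x i) ≠ 0 := by simpa using hi
  simp only [proj]
  field_simp

lemma norm_proj_apply (x : ι → ℂ) (i j : ι) :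
    ‖proj x (i, j)‖ = ‖x i‖ * ‖x j‖ / ∑ k, ‖x k‖ ^ 2 := by
  simp [proj, norm_nsq]

lemma norm_proj_le (x : ι → ℂ) : ‖proj x‖ ≤ 1 := by
  refine (pi_norm_le_iff_of_nonneg zero_le_one).mpr fun p => ?_
  obtain ⟨i, j⟩ := p
  rw [norm_proj_apply]
  have hs : 0 ≤ ∑ k, ‖x k‖ ^ 2 := Finset.sum_nonneg fun k _ => by positivity
  refine div_le_one_of_le₀ ?_ hs
  have hi : ‖x i‖ ^ 2 ≤ ∑ k, ‖x k‖ ^ 2 :=
    Finset.single_le_sum (f := fun k => ‖x k‖ ^ 2) (fun k _ => by positivity) (Finset.mem_univ i)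
  have hj : ‖x j‖ ^ 2 ≤ ∑ k, ‖x k‖ ^ 2 :=
    Finset.single_le_sum (f := fun k => ‖x k‖ ^ 2) (fun k _ => by positivity) (Finset.mem_univ j)
  linarith only [hi, hj, sq_nonneg (‖x i‖ - ‖x j‖), sq_nonneg (‖x i‖ - ‖x j‖)]

lemma exists_smul_of_proj_eq {x y : ι → ℂ} (hx : x ≠ 0) (hy : y ≠ 0) (h : proj x = proj y) :
    ∃ c : ℂ, c ≠ 0 ∧ y = c • x := by
  obtain ⟨i, hi⟩ := Function.ne_iff.mp hx
  have hi : x i ≠ 0 := hi
  have hyi : y i ≠ 0 := ne_zero_of_proj_diag (h ▸ proj_diag_ne_zero hi)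
  refine ⟨y i / x i, div_ne_zero hyi hi, funext fun j => ?_⟩
  have h1 := proj_ratio hi j
  rw [h, proj_ratio hyi j] at h1
  simp only [Pi.smul_apply, smul_eq_mul]
  field_simp at h1 ⊢
  linear_combination h1

/-- `f` has a holomorphic rescaling near `z₀`. -/
def HolAt (f : ℂ → ι → ℂ) (z₀ : ℂ) : Prop :=
  ∃ c : ℂ → ℂ, (∀ z, c z ≠ 0) ∧ AnalyticAt ℂ (fun z => c z • f z) z₀

/-- The affine chart. -/
noncomputable def chart (i : ι) (x : ι → ℂ) : ι → ℂ := (x i)⁻¹ • x

lemma ne_zero_of_norm_one {x : ι → ℂ} (hx : ‖x‖ = 1) : x ≠ 0 := by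
  rintro rfl; simp at hx

lemma exists_ne_zero_of_norm_one {x : ι → ℂ} (hx : ‖x‖ = 1) : ∃ i, x i ≠ 0 :=
  Function.ne_iff.mp (ne_zero_of_norm_one hx)

omit [Fintype ι] in
lemma chart_smul {c : ℂ} (hc : c ≠ 0) (i : ι) (x : ι → ℂ) : chart i (c • x) = chart i x := by
  simp only [chart, Pi.smul_apply, smul_eq_mul, smul_smul, mul_inv]
  congr 1
  field_simp

lemma HolAt.chart {f : ℂ → ι → ℂ} {z₀ : ℂ} (h : HolAt f z₀) {i : ι} (hi : f z₀ i ≠ 0) :
    AnalyticAt ℂ (fun z => chart i (f z)) z₀ ∧ ∀ᶠ z in 𝓝 z₀, f z i ≠ 0 := by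
  obtain ⟨c, hc, hG⟩ := h
  have hGi : AnalyticAt ℂ (fun z => (c z • f z) i) z₀ :=
    (analyticAt_pi_iff.mp hG) i
  have h0 : (c z₀ • f z₀) i ≠ 0 := by simp [hc, hi]
  constructor
  · have : (fun z => Pool.Agent.Work.MP_97b122_ag.chart i (f z)) =
        fun z => ((c z • f z) i)⁻¹ • (c z • f z) := by
      funext z
      exact (chart_smul (hc z) i (f z)).symm
    rw [this]
    exact (hGi.inv h0).smul hG
  · filter_upwards [hGi.continuousAt.eventually_ne h0] with z hz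
    intro h; apply hz; simp [h]

lemma HolAt.comp {f : ℂ → ι → ℂ} {φ : ℂ → ℂ} {z₀ : ℂ} (h : HolAt f (φ z₀))
    (hφ : AnalyticAt ℂ φ z₀) : HolAt (fun z => f (φ z)) z₀ := by
  obtain ⟨c, hc, hG⟩ := h
  exact ⟨fun z => c (φ z), fun z => hc _, AnalyticAt.comp (g := fun z => c z • f z) hG hφ⟩

lemma HolAt.contDiffAt {f : ℂ → ι → ℂ} {z₀ : ℂ} (h : HolAt f z₀) (h0 : f z₀ ≠ 0) :
    ContDiffAt ℝ 1 (fun z => proj (f z)) z₀ := by
  obtain ⟨c, hc, hG⟩ := h
  have : (fun z => proj (f z)) = fun z => proj (c z • f z) := by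
    funext z; rw [proj_smul (hc z)]
  rw [this]
  have h1 : c z₀ • f z₀ ≠ 0 := smul_ne_zero (hc z₀) h0
  exact ContDiffAt.comp (g := proj) z₀ (contDiffAt_proj h1)
    ((hG.contDiffAt (n := 1)).restrict_scalars ℝ)

lemma holAt_of_chart {f : ℂ → ι → ℂ} {z₀ : ℂ} {i : ι}
    (h : AnalyticAt ℂ (fun z => chart i (f z)) z₀) (h' : ∀ᶠ z in 𝓝 z₀, f z i ≠ 0) :
    HolAt f z₀ := by
  classical
  refine ⟨fun z => if f z i = 0 then 1 else (f z i)⁻¹, fun z => ?_, h.congr ?_⟩
  · by_cases hz : f z i = 0 <;> simp [hz]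
  · filter_upwards [h'] with z hz
    simp [hz, chart]

lemma norm_chart {x : ι → ℂ} (hx : ‖x‖ = 1) (i : ι) : ‖chart i x‖ = ‖(x i)⁻¹‖ := by
  simp [chart, norm_smul, hx]

lemma HolAt.continuousAt_norm {f : ℂ → ι → ℂ} {z₀ : ℂ} (h : HolAt f z₀) (hu : ∀ z, ‖f z‖ = 1)
    (j : ι) : ContinuousAt (fun z => ‖f z j‖) z₀ := by
  obtain ⟨c, hc, hG⟩ := h
  have : (fun z => ‖f z j‖) = fun z => ‖(c z • f z) j‖ / ‖c z • f z‖ := by
    funext z
    have := hc z
    simp [norm_smul, hu z, this]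
  rw [this]
  refine ContinuousAt.div ((analyticAt_pi_iff.mp hG) j).continuousAt.norm hG.continuousAt.norm ?_
  simp [norm_smul, hu, hc]

/-- A holomorphic function homogeneous of degree `k`. -/
def Form (k : ℕ) (φ : (ι → ℂ) → ℂ) : Prop :=
  (∀ x, AnalyticAt ℂ φ x) ∧ ∀ (c : ℂ) x, φ (c • x) = c ^ k * φ x

lemma Form.continuous {k : ℕ} {φ : (ι → ℂ) → ℂ} (h : Form k φ) : Continuous φ :=
  continuous_iff_continuousAt.mpr fun x => (h.1 x).continuousAt

lemma Form.mul {k l : ℕ} {φ ψ : (ι → ℂ) → ℂ} (h : Form k φ) (h' : Form l ψ) :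
    Form (k + l) (fun x => φ x * ψ x) :=
  ⟨fun x => (h.1 x).mul (h'.1 x), fun c x => by simp only [h.2, h'.2, pow_add]; ring⟩

lemma Form.pow {k : ℕ} {φ : (ι → ℂ) → ℂ} (h : Form k φ) (m : ℕ) :
    Form (k * m) (fun x => φ x ^ m) :=
  ⟨fun x => (h.1 x).pow m, fun c x => by simp only [h.2, mul_pow, pow_mul]⟩

lemma Form.prod {κ : Type} {φ : κ → (ι → ℂ) → ℂ} {k : κ → ℕ} (h : ∀ j, Form (k j) (φ j))
    (s : Finset κ) : Form (∑ j ∈ s, k j) (fun x => ∏ j ∈ s, φ j x) := by
  classical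
  induction s using Finset.induction_on with
  | empty => exact ⟨fun x => by simpa using analyticAt_const, fun c x => by simp⟩
  | insert a s ha ih =>
    simp only [Finset.sum_insert ha, Finset.prod_insert ha]
    exact (h a).mul ih

lemma form_of_linear (l : (ι → ℂ) →ₗ[ℂ] ℂ) : Form 1 l :=
  ⟨fun x => (LinearMap.toContinuousLinearMap l).analyticAt x, fun c x => by simp⟩

/-- An entire curve given by unit representatives. -/
structure Entire (f : ℂ → ι → ℂ) : Prop where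
  unit : ∀ z, ‖f z‖ = 1
  hol : ∀ z, HolAt f z

/-- The curve is not constant in projective space. -/
def NonConst (f : ℂ → ι → ℂ) : Prop := ∃ z w, proj (f z) ≠ proj (f w)

lemma local_dichotomy {f : ℂ → ι → ℂ} {z₀ : ℂ} (h : HolAt f z₀) {k : ℕ} {φ : (ι → ℂ) → ℂ}
    (hφ : Form k φ) :
    (∀ᶠ z in 𝓝 z₀, φ (f z) = 0) ∨ ∀ᶠ z in 𝓝[≠] z₀, φ (f z) ≠ 0 := by
  obtain ⟨c, hc, hG⟩ := h
  have hA : AnalyticAt ℂ (fun z => φ (c z • f z)) z₀ :=
    AnalyticAt.comp (g := φ) (hφ.1 _) hG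
  rcases hA.eventually_eq_zero_or_eventually_ne_zero with h1 | h1
  · left
    filter_upwards [h1] with z hz
    rw [hφ.2] at hz
    exact (mul_eq_zero.mp hz).resolve_left (pow_ne_zero _ (hc z))
  · right
    filter_upwards [h1] with z hz
    intro h0; apply hz; rw [hφ.2, h0, mul_zero]

/-- Identity principle for forms along entire curves. -/
lemma Entire.dichotomy {f : ℂ → ι → ℂ} (hf : Entire f) {k : ℕ} {φ : (ι → ℂ) → ℂ}
    (hφ : Form k φ) :
    (∀ z, φ (f z) = 0) ∨ ∀ z₀, ∀ᶠ z in 𝓝[≠] z₀, φ (f z) ≠ 0 := by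
  let U : Set ℂ := {z₀ | ∀ᶠ z in 𝓝 z₀, φ (f z) = 0}
  have hUo : IsOpen U := isOpen_setOf_eventually_nhds
  have hUc : IsClosed U := by
    rw [← isOpen_compl_iff, isOpen_iff_mem_nhds]
    intro z₀ hz₀
    have h1 := (local_dichotomy (hf.hol z₀) hφ).resolve_left hz₀
    rw [eventually_nhdsWithin_iff] at h1
    filter_upwards [h1] with z hz
    intro hzU
    by_cases hzz : z = z₀
    · exact hz₀ (hzz ▸ hzU)
    · exact hz hzz (Eventually.self_of_nhds (p := fun z => φ (f z) = 0) hzU)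
  rcases isClopen_iff.mp ⟨hUc, hUo⟩ with h | h
  · right
    intro z₀
    refine (local_dichotomy (hf.hol z₀) hφ).resolve_left fun h1 => ?_
    have : z₀ ∈ U := h1
    simp [h] at this
  · left
    intro z
    have : z ∈ U := by simp [h]
    exact Eventually.self_of_nhds (p := fun z => φ (f z) = 0) this

lemma Form.chart_isBigO {k : ℕ} {φ : (ι → ℂ) → ℂ} (hφ : Form k φ) {f : ℂ → ι → ℂ}
    (hu : ∀ z, ‖f z‖ = 1) {z₀ : ℂ} {i : ι} (h : ContinuousAt (fun z => chart i (f z)) z₀) :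
    (fun z => φ (chart i (f z))) =O[𝓝 z₀] fun z => φ (f z) := by
  have hb : ∀ᶠ z in 𝓝 z₀, ‖chart i (f z)‖ < ‖chart i (f z₀)‖ + 1 :=
    h.norm.eventually_lt continuousAt_const (by simp)
  refine IsBigO.of_bound ((‖chart i (f z₀)‖ + 1) ^ k) ?_
  filter_upwards [hb] with z hz
  rw [norm_chart (hu z)] at hz
  simp only [chart, hφ.2, norm_mul, norm_pow]
  gcongr
  exact hz.le

lemma Form.isBigO_chart {k : ℕ} {φ : (ι → ℂ) → ℂ} (hφ : Form k φ) {f : ℂ → ι → ℂ}
    (hu : ∀ z, ‖f z‖ = 1) {l : Filter ℂ} {i : ι} (h : ∀ᶠ z in l, f z i ≠ 0) :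
    (fun z => φ (f z)) =O[l] fun z => φ (chart i (f z)) := by
  refine IsBigO.of_bound 1 ?_
  filter_upwards [h] with z hz
  simp only [chart, hφ.2, norm_mul, norm_pow, one_mul]
  have h1 : ‖f z i‖ ≤ 1 := (hu z) ▸ norm_le_pi_norm (f z) i
  have h2 : 1 ≤ ‖(f z i)⁻¹‖ := by
    rw [norm_inv]; exact (one_le_inv₀ (norm_pos_iff.mpr hz)).mpr h1
  have h3 : 1 ≤ ‖(f z i)⁻¹‖ ^ k := one_le_pow₀ h2
  linarith only [h3, norm_nonneg (φ (f z)), mul_nonneg_of_nonpos_of_nonpos (Mathlib.Tactic.Linarith.sub_nonpos_of_le h3) (Mathlib.Tactic.Linarith.sub_nonpos_of_le (norm_nonneg (φ (f z))))]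

end Pool.Agent.Work.MP_97b122_ag
end

-- merged part: Pool.Agent.Work.MP_97b122_ag.Brody
section
/-!
The Brody-Zalcman rescaling lemma and compactness for curves with bounded derivative.
-/

namespace Pool.Agent.Work.MP_97b122_ag

open Filter Topology Asymptotics Metric

variable {ι : Type} [Fintype ι]

/-- The size of the derivative of the curve in projective space. -/
noncomputable def sph (f : ℂ → ι → ℂ) (z : ℂ) : ℝ := ‖fderiv ℝ (fun w => proj (f w)) z‖

lemma sph_nonneg (f : ℂ → ι → ℂ) (z : ℂ) : 0 ≤ sph f z := norm_nonneg _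

lemma sph_aff (f : ℂ → ι → ℂ) (a : ℂ) {ρ : ℝ} (hρ : 0 < ρ) (z : ℂ) :
    sph (fun w => f (a + ρ • w)) z = ρ * sph f (a + ρ • z) := by
  unfold sph
  have h1 := fderiv_comp_smul (𝕜 := ℝ) (f := fun u : ℂ => proj (f (a + u))) (x := z) ρ
  have h2 := fderiv_comp_add_left (𝕜 := ℝ) (f := fun u : ℂ => proj (f u)) (x := ρ • z) a
  rw [h1, h2, norm_smul, Real.norm_eq_abs, abs_of_pos hρ]

lemma HolAt.continuousAt_sph {f : ℂ → ι → ℂ} {z₀ : ℂ} (h : HolAt f z₀) (h0 : f z₀ ≠ 0) :
    ContinuousAt (sph f) z₀ :=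
  ((h.contDiffAt h0).continuousAt_fderiv one_ne_zero).norm

lemma analyticAt_aff (a : ℂ) (ρ : ℝ) (z : ℂ) : AnalyticAt ℂ (fun w : ℂ => a + ρ • w) z := by
  have : (fun w : ℂ => a + ρ • w) = fun w => a + (ρ : ℂ) * w := by
    funext w; simp
  rw [this]
  exact analyticAt_const.add (analyticAt_const.mul analyticAt_id)

lemma rescale {f : ℂ → ι → ℂ} (hu : ∀ z, ‖f z‖ = 1) {w : ℂ} {ε R : ℝ} (hε : 0 < ε) (hR : 0 < R)
    (hol : ∀ z ∈ closedBall w (3 * ε), HolAt f z) (hD : R ≤ ε * sph f w) :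
    ∃ (a : ℂ) (ρ : ℝ), 0 < ρ ∧ (∀ z ∈ ball (0 : ℂ) R, a + ρ • z ∈ closedBall w (3 * ε)) ∧
      sph (fun z => f (a + ρ • z)) 0 = 1 ∧
      ∀ z ∈ ball (0 : ℂ) R, sph (fun z => f (a + ρ • z)) z ≤ 2 := by
  let X := closedBall w (3 * ε)
  have : CompleteSpace X := (isClosed_closedBall).completeSpace_coe
  have hc : Continuous fun x : X => sph f x := by
    refine continuous_iff_continuousAt.mpr fun x => ?_
    exact ContinuousAt.comp (g := sph f) (f := fun x : X => (x : ℂ))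
      ((hol x x.2).continuousAt_sph (ne_zero_of_norm_one (hu x)))
      continuous_subtype_val.continuousAt
  obtain ⟨ε', hε', x', h1, h2, h3, h4⟩ :=
    hofer (X := X) ⟨w, mem_closedBall_self (by positivity)⟩ ε hε hc (fun y => sph_nonneg f y)
  have h2' : dist (x' : ℂ) w ≤ 2 * ε := h2
  have h3' : R ≤ ε' * sph f x' := hD.trans h3
  have hpos : 0 < sph f x' := by
    by_contra h
    have : sph f x' = 0 := le_antisymm (not_lt.mp h) (sph_nonneg f _)
    rw [this] at h3'; linarith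
  have hρ : 0 < (sph f x')⁻¹ := inv_pos.mpr hpos
  have hd : ∀ z ∈ ball (0 : ℂ) R, dist (x' : ℂ) (x' + (sph f x')⁻¹ • z) ≤ ε' := by
    intro z hz
    rw [mem_ball_zero_iff] at hz
    rw [dist_self_add_right, norm_smul, Real.norm_eq_abs, abs_of_pos hρ, inv_mul_le_iff₀ hpos]
    linarith only [hε, hD, h3, hz]
  have hmem : ∀ z ∈ ball (0 : ℂ) R, (x' : ℂ) + (sph f x')⁻¹ • z ∈ closedBall w (3 * ε) := by
    intro z hz
    rw [mem_closedBall]
    have := dist_triangle ((x' : ℂ) + (sph f x')⁻¹ • z) x' w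
    rw [dist_comm _ (x' : ℂ)] at this
    linarith only [h1, h2', this, hd, hz, hd z hz]
  refine ⟨x', (sph f x')⁻¹, hρ, hmem, ?_, fun z hz => ?_⟩
  · rw [sph_aff f _ hρ]; simp [hpos.ne']
  · rw [sph_aff f _ hρ, inv_mul_le_iff₀ hpos]
    have := h4 ⟨_, hmem z hz⟩ (hd z hz)
    simp only at this
    linarith only [this]

lemma unif_of_lip {E : Type} [NormedAddCommGroup E] {l : Filter ℕ} {P : ℕ → ℂ → E} {Q : ℂ → E}
    {K : Set ℂ} (hK : IsCompact K)
    (hL : ∀ᶠ ν in l, ∀ z ∈ K, ∀ w ∈ K, ‖P ν z - P ν w‖ ≤ 2 * ‖z - w‖)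
    (hQ : ∀ z w, ‖Q z - Q w‖ ≤ 2 * ‖z - w‖)
    (hpt : ∀ z, Tendsto (fun ν => P ν z) l (𝓝 (Q z))) : TendstoUniformlyOn P Q l K := by
  rw [Metric.tendstoUniformlyOn_iff]
  intro ε hε
  obtain ⟨t, htK, htf, hcov⟩ := finite_cover_balls_of_compact hK (show 0 < ε / 5 by positivity)
  have h1 : ∀ᶠ ν in l, ∀ y ∈ t, dist (P ν y) (Q y) < ε / 5 :=
    (eventually_all_finite htf).mpr fun y _ =>
      Metric.tendsto_nhds.mp (hpt y) _ (by positivity)
  filter_upwards [h1, hL] with ν h1 h2 x hx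
  obtain ⟨y, hy, hxy⟩ := Set.mem_iUnion₂.mp (hcov hx)
  rw [mem_ball, dist_eq_norm] at hxy
  have a1 := hQ x y
  have a2 := h2 x hx y (htK hy)
  have a3 := h1 y hy
  rw [dist_eq_norm] at a3 ⊢
  have : Q x - P ν x = (Q x - Q y) - (P ν y - Q y) - (P ν x - P ν y) := by abel
  rw [this]
  have b1 := norm_sub_le ((Q x - Q y) - (P ν y - Q y)) (P ν x - P ν y)
  have b2 := norm_sub_le (Q x - Q y) (P ν y - Q y)
  linarith only [hxy, a1, a2, a3, b1, b2]

/-- The ultrafilter along which all limits are taken. -/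
noncomputable abbrev uf : Filter ℕ := (hyperfilter ℕ : Filter ℕ)

lemma uf_le : uf ≤ atTop := Nat.hyperfilter_le_atTop

/-- Convergence of a sequence of curves: pointwise for the representatives and locally
uniformly in affine charts. -/
structure Conv (g : ℕ → ℂ → ι → ℂ) (f : ℂ → ι → ℂ) : Prop where
  pt : ∀ z, Tendsto (fun ν => g ν z) uf (𝓝 (f z))
  loc : ∀ z₀, ∃ r > 0, ∃ i, (∀ z ∈ ball z₀ r, f z i ≠ 0) ∧
    (∀ z ∈ ball z₀ r, AnalyticAt ℂ (fun z => chart i (f z)) z) ∧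
    (∀ᶠ ν in uf, (∀ z ∈ ball z₀ r, g ν z i ≠ 0) ∧
      ∀ z ∈ ball z₀ r, AnalyticAt ℂ (fun z => chart i (g ν z)) z) ∧
    TendstoUniformlyOn (fun ν z => chart i (g ν z)) (fun z => chart i (f z)) uf (ball z₀ r)

lemma chart_sub_le {x y : ι → ℂ} {i : ι} {c : ℝ} (hc : 0 < c) (hx : c ≤ ‖proj x (i, i)‖)
    (hy : c ≤ ‖proj y (i, i)‖) : ‖chart i x - chart i y‖ ≤ 2 * ‖proj x - proj y‖ / c ^ 2 := by
  have hx0 : proj x (i, i) ≠ 0 := norm_pos_iff.mp (hc.trans_le hx)
  have hy0 : proj y (i, i) ≠ 0 := norm_pos_iff.mp (hc.trans_le hy)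
  refine (pi_norm_le_iff_of_nonneg (by positivity)).mpr fun j => ?_
  have e1 : chart i x j = proj x (j, i) / proj x (i, i) := by
    rw [proj_ratio (ne_zero_of_proj_diag hx0)]; simp [chart]
  have e2 : chart i y j = proj y (j, i) / proj y (i, i) := by
    rw [proj_ratio (ne_zero_of_proj_diag hy0)]; simp [chart]
  rw [Pi.sub_apply, e1, e2, div_sub_div _ _ hx0 hy0, norm_div, norm_mul]
  set η := ‖proj x - proj y‖
  have a1 : ‖proj x (j, i) - proj y (j, i)‖ ≤ η := norm_le_pi_norm (proj x - proj y) (j, i)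
  have a2 : ‖proj x (i, i) - proj y (i, i)‖ ≤ η := norm_le_pi_norm (proj x - proj y) (i, i)
  have a3 : ‖proj y (i, i)‖ ≤ 1 := (norm_le_pi_norm (proj y) (i, i)).trans (norm_proj_le y)
  have a4 : ‖proj y (j, i)‖ ≤ 1 := (norm_le_pi_norm (proj y) (j, i)).trans (norm_proj_le y)
  have e3 : proj x (j, i) * proj y (i, i) - proj x (i, i) * proj y (j, i) =
      (proj x (j, i) - proj y (j, i)) * proj y (i, i) -
        (proj x (i, i) - proj y (i, i)) * proj y (j, i) := by ring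
  have a5 : ‖proj x (j, i) * proj y (i, i) - proj x (i, i) * proj y (j, i)‖ ≤ 2 * η := by
    rw [e3]
    refine (norm_sub_le _ _).trans ?_
    rw [norm_mul, norm_mul]
    have hη : 0 ≤ η := norm_nonneg _
    have b1 : ‖proj x (j, i) - proj y (j, i)‖ * ‖proj y (i, i)‖ ≤ η * 1 := by gcongr
    have b2 : ‖proj x (i, i) - proj y (i, i)‖ * ‖proj y (j, i)‖ ≤ η * 1 := by gcongr
    linarith only [b1, b2]
  have a6 : c ^ 2 ≤ ‖proj x (i, i)‖ * ‖proj y (i, i)‖ := by
    rw [sq]; gcongr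
  gcongr

theorem compactness {g : ℕ → ℂ → ι → ℂ} (hu : ∀ ν z, ‖g ν z‖ = 1)
    (hol : ∀ ν : ℕ, ∀ z ∈ ball (0 : ℂ) (ν + 1), HolAt (g ν) z)
    (hD : ∀ ν : ℕ, ∀ z ∈ ball (0 : ℂ) (ν + 1), sph (g ν) z ≤ 2)
    (h0 : ∀ ν, sph (g ν) 0 = 1) : ∃ f, Entire f ∧ NonConst f ∧ Conv g f := by
  have hex : ∀ z, ∃ a ∈ sphere (0 : ι → ℂ) 1, Tendsto (fun ν => g ν z) uf (𝓝 a) := by
    intro z
    have := (isCompact_sphere (0 : ι → ℂ) 1).ultrafilter_le_nhds
      ((hyperfilter ℕ).map fun ν => g ν z) (by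
        rw [Ultrafilter.coe_map, le_principal_iff, mem_map]
        exact univ_mem' fun ν => by simp [hu ν z])
    exact this
  choose f hf1 hpt using hex
  have hfu : ∀ z, ‖f z‖ = 1 := fun z => by simpa using hf1 z
  have hP : ∀ z, Tendsto (fun ν => proj (g ν z)) uf (𝓝 (proj (f z))) := fun z =>
    ((contDiffAt_proj (ne_zero_of_norm_one (hfu z))).continuousAt.tendsto).comp (hpt z)
  have hLip : ∀ ν : ℕ, ∀ z ∈ ball (0 : ℂ) (ν + 1), ∀ w ∈ ball (0 : ℂ) (ν + 1),
      ‖proj (g ν z) - proj (g ν w)‖ ≤ 2 * ‖z - w‖ := by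
    intro ν z hz w hw
    exact (convex_ball (0 : ℂ) (ν + 1)).norm_image_sub_le_of_norm_fderiv_le (𝕜 := ℝ)
      (f := fun w => proj (g ν w))
      (fun x hx => ((hol ν x hx).contDiffAt (ne_zero_of_norm_one (hu ν x))).differentiableAt
        one_ne_zero) (hD ν) hw hz
  have hball : ∀ (z₀ : ℂ) (r : ℝ), ∀ᶠ ν : ℕ in uf, closedBall z₀ r ⊆ ball (0 : ℂ) (ν + 1) := by
    intro z₀ r
    refine uf_le ?_
    obtain ⟨N, hN⟩ := exists_nat_ge (‖z₀‖ + r)
    filter_upwards [eventually_ge_atTop N] with ν hν z hz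
    rw [mem_closedBall, dist_eq_norm] at hz
    rw [mem_ball_zero_iff]
    have h1 : (N : ℝ) ≤ ν := by exact_mod_cast hν
    have h2 := norm_add_le (z - z₀) z₀
    simp only [sub_add_cancel] at h2
    linarith only [hN, hz, h1, h2]
  have hQ : ∀ z w, ‖proj (f z) - proj (f w)‖ ≤ 2 * ‖z - w‖ := by
    intro z w
    refine le_of_tendsto ((hP z).sub (hP w)).norm ?_
    filter_upwards [hball z 0, hball w 0] with ν h1 h2
    exact hLip ν z (h1 (mem_closedBall_self le_rfl)) w (h2 (mem_closedBall_self le_rfl))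
  have hconv : Conv g f := by
    refine ⟨hpt, fun z₀ => ?_⟩
    obtain ⟨i, hi⟩ := exists_ne_zero_of_norm_one (hfu z₀)
    set c := ‖proj (f z₀) (i, i)‖ with hc
    have hc0 : 0 < c := norm_pos_iff.mpr (proj_diag_ne_zero hi)
    have hlow : ∀ x y : ι → ℂ, ‖proj y (i, i)‖ - ‖proj x - proj y‖ ≤ ‖proj x (i, i)‖ := by
      intro x y
      have a1 : ‖proj x (i, i) - proj y (i, i)‖ ≤ ‖proj x - proj y‖ :=
        norm_le_pi_norm (proj x - proj y) (i, i)
      have a2 := norm_sub_norm_le (proj y (i, i)) (proj x (i, i))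
      rw [norm_sub_rev] at a2
      linarith
    have hf_low : ∀ z ∈ ball z₀ (c / 8), c / 2 ≤ ‖proj (f z) (i, i)‖ := by
      intro z hz
      rw [mem_ball, dist_eq_norm] at hz
      have := hlow (f z) (f z₀)
      have := hQ z z₀
      linarith
    have hg_low : ∀ᶠ ν in uf, ∀ z ∈ ball z₀ (c / 8), c / 2 ≤ ‖proj (g ν z) (i, i)‖ := by
      filter_upwards [hball z₀ (c / 8),
        Metric.tendsto_nhds.mp (hP z₀) (c / 4) (by positivity)] with ν h1 h2 z hz
      have a1 := hLip ν z (h1 (ball_subset_closedBall hz)) z₀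
        (h1 (mem_closedBall_self (by positivity)))
      rw [mem_ball, dist_eq_norm] at hz
      rw [dist_eq_norm] at h2
      have a2 := hlow (g ν z) (g ν z₀)
      have a3 := hlow (g ν z₀) (f z₀)
      linarith only [h2, hz, a1, a2, a3]
    have hne : ∀ x : ι → ℂ, c / 2 ≤ ‖proj x (i, i)‖ → x i ≠ 0 := fun x hx =>
      ne_zero_of_proj_diag (norm_pos_iff.mp (lt_of_lt_of_le (by positivity) hx))
    have hgan : ∀ᶠ ν in uf, (∀ z ∈ ball z₀ (c / 8), g ν z i ≠ 0) ∧
        ∀ z ∈ ball z₀ (c / 8), AnalyticAt ℂ (fun z => chart i (g ν z)) z := by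
      filter_upwards [hball z₀ (c / 8), hg_low] with ν h1 h2
      exact ⟨fun z hz => hne _ (h2 z hz), fun z hz =>
        ((hol ν z (h1 (ball_subset_closedBall hz))).chart (hne _ (h2 z hz))).1⟩
    have hPu : TendstoUniformlyOn (fun ν z => proj (g ν z)) (fun z => proj (f z)) uf
        (closedBall z₀ (c / 8)) := by
      refine unif_of_lip (isCompact_closedBall _ _) ?_ hQ hP
      filter_upwards [hball z₀ (c / 8)] with ν h1 z hz w hw
      exact hLip ν z (h1 hz) w (h1 hw)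
    have hU : TendstoUniformlyOn (fun ν z => chart i (g ν z)) (fun z => chart i (f z)) uf
        (ball z₀ (c / 8)) := by
      rw [Metric.tendstoUniformlyOn_iff] at hPu ⊢
      intro ε hε
      filter_upwards [hPu (ε * (c / 2) ^ 2 / 4) (by positivity), hg_low] with ν h1 h2 z hz
      have a1 := h1 z (ball_subset_closedBall hz)
      rw [dist_eq_norm] at a1 ⊢
      refine (chart_sub_le (c := c / 2) (by positivity) (hf_low z hz) (h2 z hz)).trans_lt ?_
      rw [div_lt_iff₀ (by positivity)]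
      have : 0 < ε * (c / 2) ^ 2 := by positivity
      linarith only [a1, this]
    have hdiff : DifferentiableOn ℂ (fun z => chart i (f z)) (ball z₀ (c / 8)) :=
      hU.tendstoLocallyUniformlyOn.differentiableOn
        (hgan.mono fun ν h z hz => (h.2 z hz).differentiableAt.differentiableWithinAt) isOpen_ball
    exact ⟨c / 8, by positivity, i, fun z hz => hne _ (hf_low z hz),
      fun z hz => hdiff.analyticAt (isOpen_ball.mem_nhds hz), hgan, hU⟩
  have hent : Entire f := by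
    refine ⟨hfu, fun z₀ => ?_⟩
    obtain ⟨r, hr, i, h1, h2, -, -⟩ := hconv.loc z₀
    exact holAt_of_chart (h2 z₀ (mem_ball_self hr))
      (eventually_of_mem (ball_mem_nhds z₀ hr) h1)
  refine ⟨f, hent, ?_, hconv⟩
  by_contra hnc
  simp only [NonConst, not_exists, not_not] at hnc
  obtain ⟨r, hr, i, h1, h2, h3, h4⟩ := hconv.loc 0
  have hconst : (fun z => chart i (f z)) =ᶠ[𝓝 0] fun _ => chart i (f 0) := by
    filter_upwards [ball_mem_nhds (0 : ℂ) hr] with z hz
    obtain ⟨c, hc, hcz⟩ := exists_smul_of_proj_eq (ne_zero_of_norm_one (hfu 0))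
      (ne_zero_of_norm_one (hfu z)) (hnc 0 z)
    rw [hcz, chart_smul hc]
  have hd0 : deriv (fun z => chart i (f z)) 0 = 0 := by
    rw [hconst.deriv_eq]; simp
  have hder : Tendsto (fun ν => deriv (fun z => chart i (g ν z)) 0) uf (𝓝 0) := by
    have := (h4.tendstoLocallyUniformlyOn.deriv
      (h3.mono fun ν h z hz => (h.2 z hz).differentiableAt.differentiableWithinAt)
      isOpen_ball).tendsto_at (mem_ball_self hr)
    rwa [hd0] at this
  have hc0 : chart i (f 0) ≠ 0 := by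
    have := h1 0 (mem_ball_self hr)
    exact smul_ne_zero (inv_ne_zero this) (ne_zero_of_norm_one (hfu 0))
  have hfd : Tendsto (fun ν => fderiv ℝ proj (chart i (g ν 0))) uf
      (𝓝 (fderiv ℝ proj (chart i (f 0)))) :=
    ((contDiffAt_proj hc0).continuousAt_fderiv one_ne_zero).tendsto.comp
      (h4.tendsto_at (mem_ball_self hr))
  have hlim := hfd.norm.mul hder.norm
  simp only [norm_zero, mul_zero] at hlim
  have hge : ∀ᶠ ν in uf, (1 : ℝ) ≤ ‖fderiv ℝ proj (chart i (g ν 0))‖ *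
      ‖deriv (fun z => chart i (g ν z)) 0‖ := by
    filter_upwards [h3] with ν h
    have e1 : (fun w => proj (g ν w)) =ᶠ[𝓝 0] fun w => proj (chart i (g ν w)) := by
      filter_upwards [ball_mem_nhds (0 : ℂ) hr] with z hz
      rw [chart, proj_smul (inv_ne_zero (h.1 z hz))]
    have hc1 : chart i (g ν 0) ≠ 0 :=
      smul_ne_zero (inv_ne_zero (h.1 0 (mem_ball_self hr))) (ne_zero_of_norm_one (hu ν 0))
    have hF := ((h.2 0 (mem_ball_self hr)).differentiableAt.hasFDerivAt).restrictScalars ℝ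
    have hπ := ((contDiffAt_proj hc1).differentiableAt one_ne_zero).hasFDerivAt
    have hcomp := HasFDerivAt.comp (0 : ℂ) (g := proj) (f := fun z => chart i (g ν z)) hπ hF
    have e2 : fderiv ℝ (fun w => proj (g ν w)) 0 = _ := e1.fderiv_eq.trans hcomp.fderiv
    have := h0 ν
    rw [sph, e2] at this
    rw [← this, norm_deriv_eq_norm_fderiv]
    refine (ContinuousLinearMap.opNorm_comp_le _ _).trans ?_
    rw [ContinuousLinearMap.norm_restrictScalars]
  have := ge_of_tendsto hlim hge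
  linarith

/-- Brody-Zalcman for sequences of non-constant entire curves. -/
theorem zalcman {f : ℕ → ℂ → ι → ℂ} (he : ∀ ν, Entire (f ν)) (hn : ∀ ν, NonConst (f ν)) :
    ∃ (a : ℕ → ℂ) (ρ : ℕ → ℝ) (h : ℂ → ι → ℂ), (∀ ν, 0 < ρ ν) ∧ Entire h ∧ NonConst h ∧
      Conv (fun ν z => f ν (a ν + ρ ν • z)) h := by
  have key : ∀ ν : ℕ, ∃ (a : ℂ) (ρ : ℝ), 0 < ρ ∧ sph (fun z => f ν (a + ρ • z)) 0 = 1 ∧
      ∀ z ∈ ball (0 : ℂ) (ν + 1), sph (fun z => f ν (a + ρ • z)) z ≤ 2 := by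
    intro ν
    have hw : ∃ w, 0 < sph (f ν) w := by
      by_contra h
      push Not at h
      obtain ⟨z, w, hzw⟩ := hn ν
      refine hzw (is_const_of_fderiv_eq_zero (𝕜 := ℝ) (f := fun w => proj (f ν w))
        (fun x => (((he ν).hol x).contDiffAt
          (ne_zero_of_norm_one ((he ν).unit x))).differentiableAt one_ne_zero)
        (fun x => norm_le_zero_iff.mp (h x)) z w)
    obtain ⟨w, hw⟩ := hw
    obtain ⟨a, ρ, h1, -, h2, h3⟩ := rescale (he ν).unit (w := w) (ε := (ν + 1) / sph (f ν) w)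
      (R := ν + 1) (by positivity) (by positivity) (fun z _ => (he ν).hol z)
      (by rw [div_mul_cancel₀ _ hw.ne'])
    exact ⟨a, ρ, h1, h2, h3⟩
  choose a ρ h1 h2 h3 using key
  obtain ⟨h, hh⟩ := compactness (g := fun ν z => f ν (a ν + ρ ν • z))
    (fun ν z => (he ν).unit _)
    (fun ν z _ => HolAt.comp (φ := fun z => a ν + ρ ν • z) ((he ν).hol _) (analyticAt_aff _ _ _))
    h3 h2
  exact ⟨a, ρ, h, h1, hh⟩

end Pool.Agent.Work.MP_97b122_ag
end

-- merged part: Pool.Agent.Work.MP_97b122_ag.Limit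
section
/-!
Local divisibility conditions pass to limits of curves.
-/

namespace Pool.Agent.Work.MP_97b122_ag

open Filter Topology Asymptotics Metric

variable {ι : Type} [Fintype ι]

lemma quot_max {A B : ℂ → ℂ} {z₀ : ℂ} {ρ K : ℝ} (hρ : 0 < ρ)
    (hA : ∀ z ∈ closedBall z₀ ρ, AnalyticAt ℂ A z) (hB : ∀ z ∈ closedBall z₀ ρ, AnalyticAt ℂ B z)
    (hne : ∀ z ∈ closedBall z₀ ρ, ∀ᶠ w in 𝓝[≠] z, B w ≠ 0)
    (hO : ∀ z ∈ closedBall z₀ ρ, A =O[𝓝[≠] z] B)
    (hs : ∀ z ∈ sphere z₀ ρ, B z ≠ 0 ∧ ‖A z‖ ≤ K * ‖B z‖) :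
    ∀ z ∈ closedBall z₀ ρ, B z ≠ 0 → ‖A z‖ ≤ K * ‖B z‖ := by
  classical
  let q : ℂ → ℂ := fun z => if B z = 0 then limUnder (𝓝[≠] z) (fun w => A w / B w) else A z / B z
  have hq1 : ∀ z, AnalyticAt ℂ A z → AnalyticAt ℂ B z → B z ≠ 0 → AnalyticAt ℂ q z := by
    intro z h1 h2 h3
    refine (h1.div h2 h3).congr ?_
    filter_upwards [h2.continuousAt.eventually_ne h3] with w hw
    simp [q, hw]
  have hq : ∀ z ∈ closedBall z₀ ρ, AnalyticAt ℂ q z := by
    intro z hz
    by_cases h0 : B z = 0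
    · have hAe : ∀ᶠ w in 𝓝[≠] z, AnalyticAt ℂ A w :=
        (hA z hz).eventually_analyticAt.filter_mono nhdsWithin_le_nhds
      have hBe : ∀ᶠ w in 𝓝[≠] z, AnalyticAt ℂ B w :=
        (hB z hz).eventually_analyticAt.filter_mono nhdsWithin_le_nhds
      refine Complex.analyticAt_of_differentiable_on_punctured_nhds_of_continuousAt ?_ ?_
      · filter_upwards [hAe, hBe, hne z hz] with w h1 h2 h3
        exact (hq1 w h1 h2 h3).differentiableAt
      · have hd : ∀ᶠ w in 𝓝[≠] z, DifferentiableAt ℂ (fun w => A w / B w) w := by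
          filter_upwards [hAe, hBe, hne z hz] with w h1 h2 h3
          exact (h1.div h2 h3).differentiableAt
        have hb : IsBoundedUnder (· ≤ ·) (𝓝[≠] z) fun w => ‖A w / B w‖ := by
          obtain ⟨C, hC⟩ := (hO z hz).bound
          refine ⟨C, ?_⟩
          rw [eventually_map]
          filter_upwards [hC, hne z hz] with w h1 h2
          rw [norm_div, div_le_iff₀ (norm_pos_iff.mpr h2)]
          exact h1
        have ht := Complex.tendsto_limUnder_of_differentiable_on_punctured_nhds_of_bounded_under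
          hd (by simpa only [h0, div_zero, sub_zero] using hb)
        rw [← continuousWithinAt_compl_self, ContinuousWithinAt]
        have e : q z = limUnder (𝓝[≠] z) (fun w => A w / B w) := by simp [q, h0]
        rw [e]
        refine ht.congr' ?_
        filter_upwards [hne z hz] with w hw
        simp [q, hw]
    · exact hq1 z (hA z hz) (hB z hz) h0
  have hdc : DiffContOnCl ℂ q (ball z₀ ρ) := by
    refine DifferentiableOn.diffContOnCl ?_
    rw [closure_ball z₀ hρ.ne']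
    exact fun z hz => (hq z hz).differentiableAt.differentiableWithinAt
  intro z hz hBz
  have h1 : ‖q z‖ ≤ K := by
    refine Complex.norm_le_of_forall_mem_frontier_norm_le isBounded_ball hdc ?_ ?_
    · intro w hw
      rw [frontier_ball z₀ hρ.ne'] at hw
      obtain ⟨h1, h2⟩ := hs w hw
      simp only [q, h1, if_false, norm_div]
      rwa [div_le_iff₀ (norm_pos_iff.mpr h1)]
    · rwa [closure_ball z₀ hρ.ne']
  simp only [q, hBz, if_false, norm_div] at h1
  rwa [div_le_iff₀ (norm_pos_iff.mpr hBz)] at h1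

lemma Form.chart_ne_zero {k : ℕ} {φ : (ι → ℂ) → ℂ} (hφ : Form k φ) {x : ι → ℂ} {i : ι}
    (hi : x i ≠ 0) (h : φ x ≠ 0) : φ (chart i x) ≠ 0 := by
  rw [chart, hφ.2]; exact mul_ne_zero (pow_ne_zero _ (inv_ne_zero hi)) h

theorem Conv.isBigO {g : ℕ → ℂ → ι → ℂ} {f : ℂ → ι → ℂ} (hc : Conv g f)
    (hgu : ∀ ν z, ‖g ν z‖ = 1) (hfu : ∀ z, ‖f z‖ = 1) {k l : ℕ} {A A' B : (ι → ℂ) → ℂ}
    (hA : Form k A) (hA' : Form k A') (hB : Form l B) {ε : ℕ → ℂ} (hε : Tendsto ε uf (𝓝 0))
    (hBf : ∀ z₀, ∀ᶠ z in 𝓝[≠] z₀, B (f z) ≠ 0)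
    (hBg : ∀ᶠ ν in uf, ∀ z₀, ∀ᶠ z in 𝓝[≠] z₀, B (g ν z) ≠ 0)
    (hO : ∀ ν z₀, (fun z => A (g ν z) + ε ν * A' (g ν z)) =O[𝓝[≠] z₀] fun z => B (g ν z))
    (z₀ : ℂ) : (fun z => A (f z)) =O[𝓝[≠] z₀] fun z => B (f z) := by
  obtain ⟨r, hr, i, h1, h2, h3, h4⟩ := hc.loc z₀
  have hAe : ∀ e : ℂ, Form k (fun x => A x + e * A' x) := fun e =>
    ⟨fun x => (hA.1 x).add (analyticAt_const.mul (hA'.1 x)), fun c x => by
      simp only [hA.2, hA'.2]; ring⟩
  obtain ⟨ρ, hρ, hρr, hρB⟩ : ∃ ρ > 0, ρ < r ∧ ∀ z ∈ closedBall z₀ ρ, z ≠ z₀ → B (f z) ≠ 0 := by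
    have := hBf z₀
    rw [eventually_nhdsWithin_iff, Metric.eventually_nhds_iff] at this
    obtain ⟨δ, hδ, h⟩ := this
    refine ⟨min δ r / 2, by positivity, ?_, fun z hz hzz => h ?_ hzz⟩
    · have := min_le_right δ r; linarith only [hr, this]
    · have := min_le_left δ r
      rw [mem_closedBall] at hz; linarith only [hδ, hz, this]
  have hsub : closedBall z₀ ρ ⊆ ball z₀ r := closedBall_subset_ball hρr
  have hFc : ContinuousOn (fun z => chart i (f z)) (closedBall z₀ ρ) :=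
    fun z hz => (h2 z (hsub hz)).continuousAt.continuousWithinAt
  obtain ⟨M, hM⟩ := (isCompact_closedBall z₀ ρ).exists_bound_of_continuousOn hFc
  obtain ⟨η, hη, hηB⟩ : ∃ η > 0, ∀ z ∈ sphere z₀ ρ, η ≤ ‖B (chart i (f z))‖ := by
    have hcs : ContinuousOn (fun z => ‖B (chart i (f z))‖) (sphere z₀ ρ) :=
      (hB.continuous.comp_continuousOn (hFc.mono sphere_subset_closedBall)).norm
    obtain ⟨w, hw, hmin⟩ := (isCompact_sphere z₀ ρ).exists_isMinOn
      (NormedSpace.sphere_nonempty.mpr hρ.le) hcs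
    refine ⟨_, norm_pos_iff.mpr ?_, fun z hz => hmin hz⟩
    refine hB.chart_ne_zero (h1 w (hsub (sphere_subset_closedBall hw)))
      (hρB w (sphere_subset_closedBall hw) ?_)
    rintro rfl
    simp at hw; exact hρ.ne' hw.symm
  have hK := isCompact_closedBall (0 : ι → ℂ) (M + 1)
  obtain ⟨MA, hMA⟩ := hK.exists_bound_of_continuousOn hA.continuous.continuousOn
  obtain ⟨MA', hMA'⟩ := hK.exists_bound_of_continuousOn hA'.continuous.continuousOn
  obtain ⟨δ, hδ, hδB⟩ := Metric.uniformContinuousOn_iff.mp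
    (hK.uniformContinuousOn_of_continuous hB.continuous.continuousOn) (η / 2) (by positivity)
  have hε1 : ∀ᶠ ν in uf, ‖ε ν‖ < 1 := by
    have := Metric.tendsto_nhds.mp hε 1 one_pos
    simpa using this
  have hev : ∀ᶠ ν in uf, ∀ z ∈ closedBall z₀ ρ, B (chart i (g ν z)) ≠ 0 →
      ‖A (chart i (g ν z)) + ε ν * A' (chart i (g ν z))‖ ≤
        (MA + MA') / (η / 2) * ‖B (chart i (g ν z))‖ := by
    filter_upwards [h3, hε1, Metric.tendstoUniformlyOn_iff.mp h4 (min δ 1) (by positivity), hBg]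
      with ν hν hε1 hclose hBν
    refine quot_max (A := fun z => A (chart i (g ν z)) + ε ν * A' (chart i (g ν z)))
      (B := fun z => B (chart i (g ν z))) hρ ?_ ?_ ?_ ?_ ?_
    · exact fun z hz => AnalyticAt.comp (g := fun x => A x + ε ν * A' x) ((hAe _).1 _)
        (hν.2 z (hsub hz))
    · exact fun z hz => AnalyticAt.comp (g := B) (hB.1 _) (hν.2 z (hsub hz))
    · intro z hz
      have : ∀ᶠ w in 𝓝[≠] z, g ν w i ≠ 0 :=
        (eventually_of_mem (isOpen_ball.mem_nhds (hsub hz)) hν.1).filter_mono nhdsWithin_le_nhds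
      filter_upwards [this, hBν z] with w a1 a2
      exact hB.chart_ne_zero a1 a2
    · intro z hz
      have a0 : ∀ᶠ w in 𝓝[≠] z, g ν w i ≠ 0 :=
        (eventually_of_mem (isOpen_ball.mem_nhds (hsub hz)) hν.1).filter_mono nhdsWithin_le_nhds
      have a1 := ((hAe (ε ν)).chart_isBigO (hgu ν) (hν.2 z (hsub hz)).continuousAt).mono
        (nhdsWithin_le_nhds (s := {z}ᶜ))
      exact (a1.trans (hO ν z)).trans (hB.isBigO_chart (hgu ν) a0)
    · intro z hz
      have hz' := sphere_subset_closedBall hz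
      have c1 := hclose z (hsub hz')
      have c2 : chart i (f z) ∈ closedBall (0 : ι → ℂ) (M + 1) := by
        rw [mem_closedBall_zero_iff]; linarith only [hM, hz', hM z hz']
      have c3 : chart i (g ν z) ∈ closedBall (0 : ι → ℂ) (M + 1) := by
        rw [mem_closedBall_zero_iff]
        have := norm_sub_norm_le (chart i (g ν z)) (chart i (f z))
        rw [dist_eq_norm, norm_sub_rev] at c1
        linarith [hM z hz', min_le_right δ 1]
      have c4 := hδB _ c2 _ c3 (c1.trans_le (min_le_left _ _))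
      rw [dist_eq_norm] at c4
      have c5 : η / 2 ≤ ‖B (chart i (g ν z))‖ := by
        have := norm_sub_norm_le (B (chart i (f z))) (B (chart i (g ν z)))
        linarith only [c4, this, hηB, hz, hηB z hz]
      refine ⟨norm_pos_iff.mp (lt_of_lt_of_le (by positivity) c5), ?_⟩
      have c6 : ‖A (chart i (g ν z)) + ε ν * A' (chart i (g ν z))‖ ≤ MA + MA' := by
        refine (norm_add_le _ _).trans (add_le_add (hMA _ c3) ?_)
        rw [norm_mul]
        have := hMA' _ c3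
        linarith only [this, hε1, norm_nonneg (ε ν), norm_nonneg (A' (chart i (g ν z))), mul_nonneg_of_nonpos_of_nonpos (le_of_lt (Mathlib.Tactic.Linarith.sub_neg_of_lt hε1)) (Mathlib.Tactic.Linarith.sub_nonpos_of_le (norm_nonneg (A' (chart i (g ν z)))))]
      have c7 : 0 ≤ MA + MA' := (norm_nonneg _).trans c6
      calc _ ≤ MA + MA' := c6
        _ = (MA + MA') / (η / 2) * (η / 2) := by field_simp
        _ ≤ _ := by gcongr
  have hfin : (fun z => A (chart i (f z))) =O[𝓝[≠] z₀] fun z => B (chart i (f z)) := by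
    refine IsBigO.of_bound ((MA + MA') / (η / 2)) ?_
    filter_upwards [self_mem_nhdsWithin,
      mem_nhdsWithin_of_mem_nhds (closedBall_mem_nhds z₀ hρ)] with z hz0 hz
    have hB0 : B (chart i (f z)) ≠ 0 := hB.chart_ne_zero (h1 z (hsub hz)) (hρB z hz hz0)
    have t0 := h4.tendsto_at (hsub hz)
    have tB := (hB.continuous.tendsto _).comp t0
    have tA := ((hA.continuous.tendsto _).comp t0).add
      (hε.mul ((hA'.continuous.tendsto _).comp t0))
    rw [zero_mul, add_zero] at tA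
    refine le_of_tendsto_of_tendsto tA.norm (tB.norm.const_mul _) ?_
    filter_upwards [hev, tB.eventually_ne hB0] with ν a1 a2
    exact a1 z hz a2
  have a0 : ∀ᶠ w in 𝓝[≠] z₀, f w i ≠ 0 :=
    (eventually_of_mem (ball_mem_nhds z₀ hr) h1).filter_mono nhdsWithin_le_nhds
  exact ((hA.isBigO_chart hfu a0).trans hfin).trans
    ((hB.chart_isBigO hfu (h2 z₀ (mem_ball_self hr)).continuousAt).mono nhdsWithin_le_nhds)

lemma tendsto_aff_punctured (a : ℂ) {ρ : ℝ} (hρ : 0 < ρ) (z₀ : ℂ) :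
    Tendsto (fun z : ℂ => a + ρ • z) (𝓝[≠] z₀) (𝓝[≠] (a + ρ • z₀)) := by
  refine tendsto_nhdsWithin_iff.mpr ⟨?_, ?_⟩
  · exact ((analyticAt_aff a ρ z₀).continuousAt.tendsto).mono_left nhdsWithin_le_nhds
  · filter_upwards [self_mem_nhdsWithin] with z hz
    intro h
    apply hz
    have h' : a + ρ • z = a + ρ • z₀ := h
    exact smul_right_injective ℂ hρ.ne' (add_left_cancel h')

/-- Limits of non-constant entire curves, with the two transfer principles. -/
theorem limit_exists {f : ℕ → ℂ → ι → ℂ} (he : ∀ ν, Entire (f ν)) (hn : ∀ ν, NonConst (f ν)) :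
    ∃ H : ℂ → ι → ℂ, Entire H ∧ NonConst H ∧
      (∀ (s : (ι → ℂ) → ℂ) (t : ℕ → (ι → ℂ) → ℂ), Continuous s →
        (∀ η > 0, ∀ᶠ ν in atTop, ∀ x, ‖x‖ = 1 → ‖t ν x‖ ≤ η) →
        (∀ ν z, s (f ν z) + t ν (f ν z) = 0) → ∀ z, s (H z) = 0) ∧
      (∀ (k l : ℕ) (A A' B : (ι → ℂ) → ℂ) (ε : ℕ → ℂ), Form k A → Form k A' → Form l B →
        Tendsto ε atTop (𝓝 0) → (∀ z₀, ∀ᶠ z in 𝓝[≠] z₀, B (H z) ≠ 0) →
        (∀ ν z₀, (fun z => A (f ν z) + ε ν * A' (f ν z)) =O[𝓝[≠] z₀] fun z => B (f ν z)) →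
        ∀ z₀, (fun z => A (H z)) =O[𝓝[≠] z₀] fun z => B (H z)) := by
  obtain ⟨a, ρ, H, hρ, hH, hHn, hconv⟩ := zalcman he hn
  refine ⟨H, hH, hHn, fun s t hs ht h z => ?_, fun k l A A' B ε hA hA' hB hε hBH hO => ?_⟩
  · have h1 := (hs.tendsto _).comp (hconv.pt z)
    have h2 : Tendsto (fun ν => t ν (f ν (a ν + ρ ν • z))) uf (𝓝 0) := by
      refine Tendsto.mono_left ?_ uf_le
      rw [Metric.tendsto_nhds]
      intro η hη
      filter_upwards [ht (η / 2) (by positivity)] with ν hν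
      have := hν _ ((he ν).unit (a ν + ρ ν • z))
      rw [dist_zero_right]; linarith only [hη, this]
    have h3 := h1.add h2
    rw [add_zero] at h3
    refine tendsto_nhds_unique h3 (tendsto_const_nhds.congr fun ν => ?_)
    exact (h ν _).symm
  · refine hconv.isBigO (fun ν z => (he ν).unit _) hH.unit hA hA' hB (hε.mono_left uf_le) hBH ?_
      fun ν z₀ => (hO ν (a ν + ρ ν • z₀)).comp_tendsto (tendsto_aff_punctured _ (hρ ν) z₀)
    obtain ⟨z₁, hz₁⟩ := (hBH 0).exists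
    filter_upwards [((hB.continuous.tendsto _).comp (hconv.pt z₁)).eventually_ne hz₁] with ν hν z₀
    rcases (he ν).dichotomy hB with h | h
    · exact absurd (h _) hν
    · exact (tendsto_aff_punctured _ (hρ ν) z₀).eventually (h _)

lemma zero_of_isBigO {f : ℂ → ι → ℂ} (hf : Entire f) {k l : ℕ} {A B : (ι → ℂ) → ℂ}
    (hA : Form k A) (hB : Form l B) {z₀ : ℂ}
    (hO : (fun z => A (f z)) =O[𝓝[≠] z₀] fun z => B (f z)) (h0 : B (f z₀) = 0) :
    A (f z₀) = 0 := by
  obtain ⟨i, hi⟩ := exists_ne_zero_of_norm_one (hf.unit z₀)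
  obtain ⟨h1, h2⟩ := (hf.hol z₀).chart hi
  have h3 := (((hA.chart_isBigO hf.unit h1.continuousAt).mono
    (nhdsWithin_le_nhds (s := {z₀}ᶜ))).trans hO).trans
      (hB.isBigO_chart hf.unit (h2.filter_mono nhdsWithin_le_nhds))
  have tB : Tendsto (fun z => B (chart i (f z))) (𝓝[≠] z₀) (𝓝 0) := by
    have := ((hB.continuous.tendsto _).comp h1.continuousAt.tendsto).mono_left
      (nhdsWithin_le_nhds (s := {z₀}ᶜ))
    rwa [chart, hB.2, h0, mul_zero] at this
  have tA := ((hA.continuous.tendsto _).comp h1.continuousAt.tendsto).mono_left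
      (nhdsWithin_le_nhds (s := {z₀}ᶜ))
  have := tendsto_nhds_unique tA (h3.trans_tendsto tB)
  by_contra hne
  exact hA.chart_ne_zero hi hne this

lemma isBigO_one_of_continuous {φ : (ι → ℂ) → ℂ} (hφ : Continuous φ) {f : ℂ → ι → ℂ}
    (hu : ∀ z, ‖f z‖ = 1) (l : Filter ℂ) : (fun z => φ (f z)) =O[l] fun _ => (1 : ℂ) := by
  obtain ⟨C, hC⟩ := (isCompact_sphere (0 : ι → ℂ) 1).exists_bound_of_continuousOn hφ.continuousOn
  exact IsBigO.of_bound C (Eventually.of_forall fun z => by simpa using hC (f z) (by simp [hu z]))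

end Pool.Agent.Work.MP_97b122_ag
end

-- merged part: Pool.Agent.Work.MP_97b122_ag.Green
section
/-!
Green's theorem: an entire curve in a projective space of dimension `m` omitting `2m+1`
hyperplanes in general position is constant (proof by extraction of roots).
-/

namespace Pool.Agent.Work.MP_97b122_ag

open Filter Topology Asymptotics Metric

lemma exists_log {u : ℂ → ℂ} (hu : Differentiable ℂ u) (h0 : ∀ z, u z ≠ 0) :
    ∃ g : ℂ → ℂ, Differentiable ℂ g ∧ ∀ z, Complex.exp (g z) = u z := by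
  have hd : Differentiable ℂ (fun z => deriv u z / u z) :=
    (hu.deriv).div hu h0
  obtain ⟨g, hg0, hg⟩ := hd.isExactOn_univ.with_val_at 0 (Complex.log (u 0))
  have hgd : Differentiable ℂ g := fun z => (hg z (Set.mem_univ z)).differentiableAt
  refine ⟨g, hgd, fun z => ?_⟩
  have hc : ∀ z, HasDerivAt (fun z => u z * Complex.exp (-g z)) 0 z := by
    intro z
    have h1 := (hu z).hasDerivAt.mul ((hg z (Set.mem_univ z)).neg.cexp)
    refine h1.congr_deriv ?_
    have := h0 z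
    simp only [Pi.neg_apply]
    field_simp
    ring
  have := is_const_of_deriv_eq_zero (fun z => (hc z).differentiableAt)
    (fun z => (hc z).deriv) z 0
  rw [hg0, Complex.exp_neg, Complex.exp_neg, Complex.exp_log (h0 0), mul_inv_cancel₀ (h0 0),
    mul_inv_eq_one₀ (Complex.exp_ne_zero _)] at this
  exact this.symm

variable {ι : Type} [Fintype ι]

lemma poly_end {m : ℕ} (hcard : 2 * m + 1 ≤ Fintype.card ι) {H : ℂ → ι → ℂ} (hH : Entire H)
    (hP : ∀ z (A : Finset ι), A.card = m + 1 → ∀ j, ∃ a ∈ A, ‖H z j‖ ≤ ‖H z a‖) :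
    ¬ NonConst H := by
  classical
  have hne : Nonempty ι := Fintype.card_pos_iff.mp (by omega)
  have hle : ∀ z j, ‖H z j‖ ≤ 1 := fun z j => (hH.unit z) ▸ norm_le_pi_norm (H z) j
  have hmax : ∀ z (A : Finset ι), A.card = m + 1 → ∃ a ∈ A, ‖H z a‖ = 1 := by
    intro z A hA
    obtain ⟨j, hj⟩ := Finite.exists_max fun j => ‖H z j‖
    obtain ⟨a, ha, h⟩ := hP z A hA j
    refine ⟨a, ha, le_antisymm (hle z a) ?_⟩
    rw [← hH.unit z]
    exact ((pi_norm_le_iff_of_nonneg (norm_nonneg _)).mpr hj).trans h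
  let X : {B : Finset ι // B.card = m + 1} → Set ℂ := fun B => {z | ∀ a ∈ B.1, ‖H z a‖ = 1}
  have hXc : ∀ B, IsClosed (X B) := by
    intro B
    have : X B = ⋂ a ∈ B.1, {z | ‖H z a‖ = 1} := by ext z; simp [X]
    rw [this]
    exact isClosed_biInter fun a _ => isClosed_eq
      (continuous_iff_continuousAt.mpr fun z => (hH.hol z).continuousAt_norm hH.unit a)
      continuous_const
  have hXu : ⋃ B, X B = Set.univ := by
    refine Set.eq_univ_of_forall fun z => ?_
    let M := Finset.univ.filter fun a => ‖H z a‖ = 1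
    have hM : m + 1 ≤ M.card := by
      by_contra h
      have h1 : m + 1 ≤ Mᶜ.card := by rw [Finset.card_compl]; omega
      obtain ⟨A, hA, hAc⟩ := Finset.exists_subset_card_eq h1
      obtain ⟨a, ha, h2⟩ := hmax z A hAc
      have := hA ha
      simp [M, h2] at this
    obtain ⟨B, hB, hBc⟩ := Finset.exists_subset_card_eq hM
    exact Set.mem_iUnion.mpr ⟨⟨B, hBc⟩, fun a ha => by simpa [M] using hB ha⟩
  obtain ⟨B, z₀, hz₀⟩ := nonempty_interior_of_iUnion_of_closed hXc hXu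
  have hev : ∀ᶠ z in 𝓝 z₀, ∀ a ∈ B.1, ‖H z a‖ = 1 := mem_interior_iff_mem_nhds.mp hz₀
  obtain ⟨a₀, ha₀⟩ : B.1.Nonempty := Finset.card_pos.mp (by rw [B.2]; omega)
  have h00 : H z₀ a₀ ≠ 0 := by
    have := hev.self_of_nhds a₀ ha₀
    intro h; rw [h] at this; simp at this
  have hch := (hH.hol z₀).chart h00
  have heq : ∀ a ∈ B.1, ∀ z, ‖H z a‖ = ‖H z a₀‖ := by
    intro a ha
    have han : AnalyticAt ℂ (fun z => chart a₀ (H z) a) z₀ := analyticAt_pi_iff.mp hch.1 a
    have hn : ∀ᶠ z in 𝓝 z₀, ‖chart a₀ (H z) a‖ = 1 := by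
      filter_upwards [hev] with z hz
      simp [chart, hz a ha, hz a₀ ha₀]
    have hc := Complex.eventually_eq_of_isLocalMax_norm (f := fun z => chart a₀ (H z) a) (c := z₀)
      (han.eventually_analyticAt.mono fun z hz => hz.differentiableAt) (by
        filter_upwards [hn] with z hz
        simp only [Function.comp_apply]
        rw [hz, hn.self_of_nhds])
    set c := chart a₀ (H z₀) a with hcdef
    have hc1 : ‖c‖ = 1 := hn.self_of_nhds
    let l : (ι → ℂ) →ₗ[ℂ] ℂ := LinearMap.proj a - c • LinearMap.proj a₀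
    have hl : ∀ x, l x = x a - c * x a₀ := fun x => by simp [l]
    have hz : ∀ᶠ z in 𝓝 z₀, l (H z) = 0 := by
      filter_upwards [hc, hch.2] with z h1 h2
      rw [hl, ← h1]
      simp only [chart, Pi.smul_apply, smul_eq_mul]
      field_simp
      ring
    rcases hH.dichotomy (form_of_linear l) with h | h
    · intro z
      have := h z
      rw [hl, sub_eq_zero] at this
      rw [this, norm_mul, hc1, one_mul]
    · exfalso
      obtain ⟨z, h1, h2⟩ := ((h z₀).and (hz.filter_mono nhdsWithin_le_nhds)).exists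
      exact h1 h2
  have hone : ∀ z, ‖H z a₀‖ = 1 := by
    intro z
    obtain ⟨a, ha, h⟩ := hmax z B.1 B.2
    rw [← heq a ha z, h]
  have hne0 : ∀ z, H z a₀ ≠ 0 := fun z h => by simpa [h] using hone z
  have hdiff : Differentiable ℂ fun z => chart a₀ (H z) := fun z =>
    ((hH.hol z).chart (hne0 z)).1.differentiableAt
  have hbd : Bornology.IsBounded (Set.range fun z => chart a₀ (H z)) := by
    refine (isBounded_closedBall (x := (0 : ι → ℂ)) (r := 1)).subset ?_
    rintro _ ⟨z, rfl⟩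
    rw [mem_closedBall_zero_iff, norm_chart (hH.unit z), norm_inv, hone z]; simp
  rintro ⟨z, w, hzw⟩
  apply hzw
  have := hdiff.apply_eq_apply_of_bounded hbd z w
  rw [← proj_smul (inv_ne_zero (hne0 z)) (H z), ← proj_smul (inv_ne_zero (hne0 w)) (H w)]
  exact congrArg proj this

/-- Normalisation of a vector. -/
noncomputable def nrm (x : ι → ℂ) : ι → ℂ := ((‖x‖ : ℂ))⁻¹ • x

lemma norm_nrm {x : ι → ℂ} (hx : x ≠ 0) : ‖nrm x‖ = 1 := by
  have : ‖x‖ ≠ 0 := norm_ne_zero_iff.mpr hx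
  simp [nrm, norm_smul, this]

lemma smul_nrm {x : ι → ℂ} (hx : x ≠ 0) : (‖x‖ : ℂ) • nrm x = x := by
  have : (‖x‖ : ℂ) ≠ 0 := by exact_mod_cast norm_ne_zero_iff.mpr hx
  simp [nrm, smul_smul, this]

lemma proj_nrm {x : ι → ℂ} (hx : x ≠ 0) : proj (nrm x) = proj x := by
  have : (‖x‖ : ℂ) ≠ 0 := by exact_mod_cast norm_ne_zero_iff.mpr hx
  exact proj_smul (inv_ne_zero this) x

lemma green_core {m : ℕ} (hcard : 2 * m + 1 ≤ Fintype.card ι) {u : ι → ℂ → ℂ}
    (hu : ∀ j, Differentiable ℂ (u j)) (h0 : ∀ j z, u j z ≠ 0) {C : ℝ} (hC : 0 < C)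
    (hP : ∀ z (A : Finset ι), A.card = m + 1 → ∀ j, ∃ a ∈ A, ‖u j z‖ ≤ C * ‖u a z‖)
    (i j : ι) (z w : ℂ) : u j z * u i w = u j w * u i z := by
  by_contra hne
  choose g hg hge using fun j => exists_log (hu j) (h0 j)
  let v : ℕ → ℂ → ι → ℂ := fun ν z j => Complex.exp (g j z / (ν + 1))
  have hv0 : ∀ ν z, v ν z ≠ 0 := fun ν z h => Complex.exp_ne_zero _ (congrFun h i)
  have hvp : ∀ ν z j, v ν z j ^ (ν + 1) = u j z := by
    intro ν z j
    have : ((ν : ℂ) + 1) ≠ 0 := by exact_mod_cast Nat.succ_ne_zero ν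
    simp only [v]
    rw [← Complex.exp_nat_mul, ← hge]
    congr 1
    push_cast
    field_simp
  have hent : ∀ ν, Entire fun z => nrm (v ν z) := by
    intro ν
    refine ⟨fun z => norm_nrm (hv0 ν z), fun z₀ => ⟨fun z => (‖v ν z‖ : ℂ), fun z => ?_, ?_⟩⟩
    · exact Complex.ofReal_ne_zero.mpr (norm_ne_zero_iff.mpr (hv0 ν z))
    · simp only [smul_nrm (hv0 ν _)]
      refine analyticAt_pi_iff.mpr fun j => ?_
      exact (((hg j).div_const _).cexp).analyticAt z₀
  have hnc : ∀ ν, NonConst fun z => nrm (v ν z) := by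
    intro ν
    refine ⟨z, w, fun h => hne ?_⟩
    simp only [proj_nrm (hv0 ν _)] at h
    obtain ⟨c, hc, h1⟩ := exists_smul_of_proj_eq (hv0 ν z) (hv0 ν w) h
    rw [← hvp ν w i, ← hvp ν w j, ← hvp ν z i, ← hvp ν z j, h1]
    simp only [Pi.smul_apply, smul_eq_mul, mul_pow]
    ring
  obtain ⟨a, ρ, H, hρ, hH, hHn, hconv⟩ := zalcman hent hnc
  refine poly_end hcard hH (fun z A hA j => ?_) hHn
  by_contra hcon
  push Not at hcon
  have ht : Tendsto (fun ν : ℕ => Real.exp (Real.log C / (ν + 1))) uf (𝓝 1) := by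
    have h1 : Tendsto (fun ν : ℕ => Real.log C / ((ν : ℝ) + 1)) atTop (𝓝 0) :=
      tendsto_const_nhds.div_atTop (tendsto_natCast_atTop_atTop.atTop_add tendsto_const_nhds)
    have h2 := (Real.continuous_exp.tendsto 0).comp h1
    rw [Real.exp_zero] at h2
    exact h2.mono_left uf_le
  have hc : ∀ k, Tendsto (fun ν => ‖nrm (v ν (a ν + ρ ν • z)) k‖) uf (𝓝 ‖H z k‖) := fun k =>
    (((continuous_apply k).tendsto _).comp (hconv.pt z)).norm
  have hev : ∀ᶠ ν : ℕ in uf, ∀ b ∈ A, Real.exp (Real.log C / (ν + 1)) *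
      ‖nrm (v ν (a ν + ρ ν • z)) b‖ < ‖nrm (v ν (a ν + ρ ν • z)) j‖ := by
    refine (eventually_all_finset A).mpr fun b hb => ?_
    have := ht.mul (hc b)
    rw [one_mul] at this
    exact this.eventually_lt (hc j) (hcon b hb)
  obtain ⟨ν, hν⟩ := hev.exists
  obtain ⟨b, hb, hle⟩ := hP (a ν + ρ ν • z) A hA j
  have h1 := hν b hb
  set y := a ν + ρ ν • z
  rw [← hge, ← hge, Complex.norm_exp, Complex.norm_exp, ← Real.exp_log hC, ← Real.exp_add,
    Real.exp_le_exp] at hle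
  have hn : ∀ k, ‖nrm (v ν y) k‖ = ‖v ν y‖⁻¹ * Real.exp ((g k y).re / (ν + 1)) := by
    intro k
    have e : ((ν : ℂ) + 1) = ((ν + 1 : ℝ) : ℂ) := by push_cast; rfl
    simp only [nrm, Pi.smul_apply, smul_eq_mul, norm_mul, norm_inv, Complex.norm_real, norm_norm,
      v, Complex.norm_exp, e, Complex.div_ofReal_re]
  rw [hn, hn, mul_left_comm, ← Real.exp_add, ← add_div] at h1
  have h2 : 0 < ‖v ν y‖⁻¹ := inv_pos.mpr (norm_pos_iff.mpr (hv0 ν y))
  have h3 := Real.exp_lt_exp.mp (lt_of_mul_lt_mul_left h1 h2.le)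
  rw [div_lt_div_iff_of_pos_right (by positivity)] at h3
  linarith only [hle, h3]

/-- Linear forms in general position. -/
def GenPos {κ : Type} (n : ℕ) (l : κ → (ι → ℂ) →ₗ[ℂ] ℂ) : Prop :=
  ∀ S : Finset κ, S.card = n + 1 → ∀ x, (∀ j ∈ S, l j x = 0) → x = 0

theorem green {κ : Type} [Fintype κ] [DecidableEq κ] {n m : ℕ} {l : κ → (ι → ℂ) →ₗ[ℂ] ℂ}
    (hl : GenPos n l) {f : ℂ → ι → ℂ} (hf : Entire f) {I G : Finset κ} (hIG : Disjoint I G)
    (hI : ∀ i ∈ I, ∀ z, l i (f z) = 0) (hG : ∀ j ∈ G, ∀ z, l j (f z) ≠ 0)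
    (hm : I.card + m = n) (hc : 2 * m + 1 ≤ G.card) : ¬ NonConst f := by
  have hb : ∀ (S : Finset κ) (j : κ), ∃ C > 0, S.card = n + 1 → ∀ x (b : ℝ), 0 ≤ b →
      (∀ a ∈ S, ‖l a x‖ ≤ b) → ‖l j x‖ ≤ C * b := by
    intro S j
    by_cases hS : S.card = n + 1
    · let Φ : (ι → ℂ) →ₗ[ℂ] (S → ℂ) := LinearMap.pi fun a => l a
      have hΦ : LinearMap.ker Φ = ⊥ := by
        rw [LinearMap.ker_eq_bot']
        intro x hx
        exact hl S hS x fun a ha => congrFun hx ⟨a, ha⟩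
      obtain ⟨K, hK, hK'⟩ := Φ.exists_antilipschitzWith hΦ
      refine ⟨(‖LinearMap.toContinuousLinearMap (l j)‖ + 1) * K, by positivity,
        fun _ x b hb h => ?_⟩
      have h1 : ‖x‖ ≤ K * ‖Φ x‖ := by simpa using hK'.le_mul_dist x 0
      have h2 : ‖Φ x‖ ≤ b := (pi_norm_le_iff_of_nonneg hb).mpr fun a => h a a.2
      have h3 : ‖l j x‖ ≤ ‖LinearMap.toContinuousLinearMap (l j)‖ * ‖x‖ :=
        (LinearMap.toContinuousLinearMap (l j)).le_opNorm x
      calc ‖l j x‖ ≤ (‖LinearMap.toContinuousLinearMap (l j)‖ + 1) * ‖x‖ := by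
            linarith only [h3, norm_nonneg x]
        _ ≤ (‖LinearMap.toContinuousLinearMap (l j)‖ + 1) * (K * b) := by
            gcongr; exact h1.trans (by gcongr)
        _ = _ := by ring
    · exact ⟨1, one_pos, fun h => absurd h hS⟩
  choose C hC0 hC using hb
  obtain ⟨j₀, hj₀⟩ : G.Nonempty := Finset.card_pos.mp (by omega)
  let F : ℂ → ι → ℂ := fun z => (l j₀ (f z))⁻¹ • f z
  have hFd : Differentiable ℂ F := by
    intro z₀
    obtain ⟨c, hc, hA⟩ := hf.hol z₀
    have e : F = fun z => (l j₀ (c z • f z))⁻¹ • (c z • f z) := by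
      funext z
      simp only [F, map_smul, smul_eq_mul, smul_smul, mul_inv]
      congr 1
      have := hc z
      field_simp
    rw [e]
    have h1 : AnalyticAt ℂ (fun z => l j₀ (c z • f z)) z₀ :=
      AnalyticAt.comp (g := l j₀) ((form_of_linear (l j₀)).1 _) hA
    refine ((h1.inv ?_).smul hA).differentiableAt
    simp [hc, hG j₀ hj₀]
  have hFI : ∀ i ∈ I, ∀ z, l i (F z) = 0 := fun i hi z => by simp [F, hI i hi z]
  have hcardS : ∀ A : Finset κ, A ⊆ G → A.card = m + 1 → (I ∪ A).card = n + 1 := by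
    intro A hA hAc
    rw [Finset.card_union_of_disjoint (hIG.mono_right hA)]; omega
  have hcore := green_core (ι := G) (m := m) (by simpa using hc) (u := fun j z => l j (F z))
    (fun j => (LinearMap.toContinuousLinearMap (l j)).differentiable.comp hFd)
    (fun j z => by simp [F, hG j j.2 z, hG j₀ hj₀ z])
    (C := ∑ p : Finset κ × κ, C p.1 p.2)
    (Finset.sum_pos (fun p _ => hC0 _ _) ⟨(∅, j₀), Finset.mem_univ _⟩) (by
      intro z A hA j
      obtain ⟨a, ha, hmax⟩ := A.exists_max_image (fun a => ‖l a (F z)‖)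
        (Finset.card_pos.mp (by omega))
      refine ⟨a, ha, ?_⟩
      let A' := A.map (Function.Embedding.subtype _)
      have hA' : A' ⊆ G := by
        intro x hx
        obtain ⟨y, -, rfl⟩ := Finset.mem_map.mp hx
        exact y.2
      have := hC (I ∪ A') j (hcardS A' hA' (by simp [A', hA])) (F z) ‖l a (F z)‖ (norm_nonneg _)
        (by
          intro b hb
          rcases Finset.mem_union.mp hb with hb | hb
          · simp [hFI b hb]
          · obtain ⟨y, hy, rfl⟩ := Finset.mem_map.mp hb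
            exact hmax y hy)
      refine this.trans (mul_le_mul_of_nonneg_right ?_ (norm_nonneg _))
      exact Finset.single_le_sum (f := fun p : Finset κ × κ => C p.1 p.2)
        (fun p _ => (hC0 _ _).le) (Finset.mem_univ (I ∪ A', (j : κ))))
  rintro ⟨z, w, hzw⟩
  apply hzw
  obtain ⟨A, hA, hAc⟩ := Finset.exists_subset_card_eq (show m + 1 ≤ G.card by omega)
  have hone : ∀ z, l j₀ (F z) = 1 := fun z => by simp [F, hG j₀ hj₀ z]
  have hFF : F z - F w = 0 := by
    refine hl (I ∪ A) (hcardS A hA hAc) _ fun j hj => ?_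
    rcases Finset.mem_union.mp hj with hj | hj
    · simp [hFI j hj]
    · have := hcore ⟨j₀, hj₀⟩ ⟨j, hA hj⟩ z w
      simp only [hone, mul_one] at this
      rw [map_sub, this, sub_self]
  rw [← proj_smul (inv_ne_zero (hG j₀ hj₀ z)) (f z), ← proj_smul (inv_ne_zero (hG j₀ hj₀ w)) (f w)]
  exact congrArg proj (sub_eq_zero.mp hFF)

end Pool.Agent.Work.MP_97b122_ag
end

-- merged part: Pool.Agent.Work.MP_97b122_ag.Expander
section
/-!
Existence of expanding digraphs of out-degree six on `8n` vertices, by counting.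
-/

namespace Pool.Agent.Work.MP_97b122_ag

open Finset

lemma card_bad {q t : ℕ} (S T : Finset (Fin q)) :
    (Fintype.piFinset fun e : Fin q × Fin t => if e.1 ∈ S then T else univ).card =
      T.card ^ (S.card * t) * q ^ ((q - S.card) * t) := by
  rw [Fintype.card_piFinset, Fintype.prod_prod_type]
  simp only [apply_ite card, card_univ, Fintype.card_fin, prod_const]
  simp only [ite_pow]
  rw [prod_ite, prod_const, prod_const, ← pow_mul, ← pow_mul, mul_comm t, mul_comm t]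
  congr 3
  · simp
  · rw [filter_not]; simp [card_univ_diff]

theorem exists_expander {n : ℕ} (hn : 1 ≤ n) : ∃ φ : Fin (8 * n) × Fin 6 → Fin (8 * n),
    ∀ S T : Finset (Fin (8 * n)), S ⊆ T → 2 * n ≤ S.card → T.card ≤ 4 * n →
      ∃ e, e.1 ∈ S ∧ φ e ∉ T := by
  classical
  let bad : Finset (Fin (8 * n) × Fin 6 → Fin (8 * n)) :=
    (powersetCard (4 * n) univ).biUnion fun T => (powersetCard (2 * n) T).biUnion fun S =>
      Fintype.piFinset fun e : Fin (8 * n) × Fin 6 => if e.1 ∈ S then T else univ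
  have hcard : bad.card < (univ : Finset (Fin (8 * n) × Fin 6 → Fin (8 * n))).card := by
    have h1 : bad.card ≤ (8 * n).choose (4 * n) * ((4 * n).choose (2 * n) *
        ((4 * n) ^ (2 * n * 6) * (8 * n) ^ ((8 * n - 2 * n) * 6))) := by
      refine card_biUnion_le.trans ?_
      refine (sum_le_card_nsmul _ _ ((4 * n).choose (2 * n) *
        ((4 * n) ^ (2 * n * 6) * (8 * n) ^ ((8 * n - 2 * n) * 6))) fun T hT => ?_).trans (by simp)
      have hT' := (mem_powersetCard.mp hT).2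
      refine card_biUnion_le.trans ?_
      refine (sum_le_card_nsmul _ _ ((4 * n) ^ (2 * n * 6) * (8 * n) ^ ((8 * n - 2 * n) * 6))
        fun S hS => ?_).trans (by simp [hT'])
      rw [card_bad, hT', (mem_powersetCard.mp hS).2]
    refine h1.trans_lt ?_
    have h2 := Nat.choose_lt_two_pow (8 * n) (4 * n) (by omega)
    have h3 := (Nat.choose_lt_two_pow (4 * n) (2 * n) (by omega)).le
    have h4 : (univ : Finset (Fin (8 * n) × Fin 6 → Fin (8 * n))).card =
        2 ^ (8 * n) * (2 ^ (4 * n) *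
          ((4 * n) ^ (2 * n * 6) * (8 * n) ^ ((8 * n - 2 * n) * 6))) := by
      simp only [card_univ, Fintype.card_fun, Fintype.card_fin, Fintype.card_prod]
      have e1 : 8 * n * 6 = 2 * n * 6 + (8 * n - 2 * n) * 6 := by omega
      have e2 : (8 * n) ^ (2 * n * 6) = 2 ^ (8 * n) * (2 ^ (4 * n) * (4 * n) ^ (2 * n * 6)) := by
        rw [← mul_assoc, ← pow_add, show 8 * n + 4 * n = 2 * n * 6 by ring, ← mul_pow]
        congr 1; ring
      rw [e1, pow_add, e2]; ring
    rw [h4]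
    have h5 : 0 < (4 * n).choose (2 * n) *
        ((4 * n) ^ (2 * n * 6) * (8 * n) ^ ((8 * n - 2 * n) * 6)) := by
      have := Nat.choose_pos (show 2 * n ≤ 4 * n by omega)
      have : 0 < n := hn
      positivity
    calc _ < 2 ^ (8 * n) * ((4 * n).choose (2 * n) *
          ((4 * n) ^ (2 * n * 6) * (8 * n) ^ ((8 * n - 2 * n) * 6))) :=
          Nat.mul_lt_mul_of_pos_right h2 h5
      _ ≤ _ := by gcongr
  obtain ⟨φ, -, hφ⟩ := exists_mem_notMem_of_card_lt_card hcard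
  refine ⟨φ, fun S T hST hS hT => ?_⟩
  by_contra hcon
  push Not at hcon
  obtain ⟨S', hS', hS'c⟩ := exists_subset_card_eq hS
  obtain ⟨T', hT', -, hT'c⟩ := exists_subsuperset_card_eq (subset_univ T) hT
    (show 4 * n ≤ (univ : Finset (Fin (8 * n))).card by simp; omega)
  apply hφ
  simp only [bad, mem_biUnion, mem_powersetCard, Fintype.mem_piFinset]
  refine ⟨T', ⟨subset_univ _, hT'c⟩, S', ⟨(hS'.trans hST).trans hT', hS'c⟩, fun e => ?_⟩
  split_ifs with h
  · exact hT' (hcon e (hS' h))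
  · exact mem_univ _

lemma few_bad {κ ε : Type} [DecidableEq κ] {u v : ε → κ} {s t m : ℕ}
    (hexp : ∀ S T : Finset κ, S ⊆ T → s ≤ S.card → T.card ≤ t → ∃ e, u e ∈ S ∧ v e ∉ T)
    (W B : Finset κ) (hW : s + m + W.card ≤ t)
    (hB : ∀ j ∈ B, ∃ K : Finset κ, j ∈ K ∧ K.card ≤ m ∧ ∀ e, u e ∈ K → v e ∈ K ∪ W) :
    B.card < s := by
  by_contra hcon
  have key : ∀ r ≤ B.card, ∃ S : Finset κ, r ≤ S.card ∧ S.card ≤ r + m ∧
      ∀ e, u e ∈ S → v e ∈ S ∪ W := by
    intro r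
    induction r with
    | zero => exact fun _ => ⟨∅, by simp, by simp, by simp⟩
    | succ r ih =>
      intro hr
      obtain ⟨S, h1, h2, h3⟩ := ih (by omega)
      by_cases h : r + 1 ≤ S.card
      · exact ⟨S, h, by omega, h3⟩
      · obtain ⟨j, hj, hjS⟩ := exists_mem_notMem_of_card_lt_card (show S.card < B.card by omega)
        obtain ⟨K, hK1, hK2, hK3⟩ := hB j hj
        refine ⟨S ∪ K, ?_, ?_, fun e he => ?_⟩
        · have : (insert j S).card ≤ (S ∪ K).card :=
            card_le_card (insert_subset (mem_union_right _ hK1) subset_union_left)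
          rw [card_insert_of_notMem hjS] at this
          omega
        · have := card_union_le S K
          omega
        · rcases mem_union.mp he with he | he
          · have := h3 e he
            simp only [mem_union] at this ⊢; tauto
          · have := hK3 e he
            simp only [mem_union] at this ⊢; tauto
  obtain ⟨S, h1, h2, h3⟩ := key s (not_lt.mp hcon)
  obtain ⟨e, he1, he2⟩ := hexp S (S ∪ W) subset_union_left h1
    ((card_union_le S W).trans (by omega))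
  exact he2 (h3 e he1)

end Pool.Agent.Work.MP_97b122_ag
end

-- merged part: Pool.Agent.Work.MP_97b122_ag.Deform
section
/-!
The successive deformation of a non-reduced hyperplane arrangement driven by an expanding digraph.
-/

namespace Pool.Agent.Work.MP_97b122_ag

set_option linter.unusedSectionVars false

open Filter Topology Asymptotics Finset MvPolynomial

variable {ι : Type} [Fintype ι]

lemma form_eval {d : ℕ} {F : MvPolynomial ι ℂ} (hF : F.IsHomogeneous d) :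
    Form d (fun x => eval x F) := by
  refine ⟨fun x => AnalyticOnNhd.eval_mvPolynomial F x (Set.mem_univ x), fun c x => ?_⟩
  simp only [eval_eq', mul_sum]
  refine sum_congr rfl fun m hm => ?_
  have h1 : ∑ i, m i = d := by
    rw [hF.degree_eq_sum_deg_support hm]
    exact (Finset.sum_subset (subset_univ _) fun i _ hi => by simpa using hi).symm
  simp only [Pi.smul_apply, smul_eq_mul, mul_pow, prod_mul_distrib, prod_pow_eq_pow_sum, h1]
  ring

/-- The function `s` is given by a homogeneous polynomial of degree `d`. -/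
def PF (d : ℕ) (s : (ι → ℂ) → ℂ) : Prop :=
  ∃ F : MvPolynomial ι ℂ, F.IsHomogeneous d ∧ ∀ x, s x = eval x F

lemma PF.form {d : ℕ} {s : (ι → ℂ) → ℂ} (h : PF d s) : Form d s := by
  obtain ⟨F, hF, hs⟩ := h
  rw [funext hs]; exact form_eval hF

lemma pf_linear (l : (ι → ℂ) →ₗ[ℂ] ℂ) : PF 1 l := by
  classical
  refine ⟨∑ i, C (l fun j => if i = j then 1 else 0) * X i,
    IsHomogeneous.sum _ _ _ fun i _ => isHomogeneous_C_mul_X _ i, fun x => ?_⟩
  rw [LinearMap.pi_apply_eq_sum_univ l x]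
  simp [mul_comm]

lemma PF.add_smul {d : ℕ} {s t : (ι → ℂ) → ℂ} (hs : PF d s) (ht : PF d t) (e : ℂ) :
    PF d fun x => s x + e * t x := by
  obtain ⟨F, hF, hs⟩ := hs
  obtain ⟨G, hG, ht⟩ := ht
  exact ⟨F + C e * G, hF.add (hG.C_mul e), fun x => by simp [hs, ht]⟩

variable {κ : Type} [Fintype κ] [DecidableEq κ] {N : ℕ}

/-- A monomial in the linear forms. -/
noncomputable def mono (l : κ → (ι → ℂ) →ₗ[ℂ] ℂ) (e : κ → ℕ) (x : ι → ℂ) : ℂ :=
  ∏ j, l j x ^ e j

omit [DecidableEq κ] in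
lemma pf_mono (l : κ → (ι → ℂ) →ₗ[ℂ] ℂ) (e : κ → ℕ) : PF (∑ j, e j) (mono l e) := by
  choose F hF hl using fun j => pf_linear (l j)
  refine ⟨∏ j, F j ^ e j, IsHomogeneous.prod _ _ _ fun j _ => ?_, fun x => by simp [mono, hl]⟩
  simpa using (hF j).pow (e j)

omit [DecidableEq κ] in
lemma mono_add (l : κ → (ι → ℂ) →ₗ[ℂ] ℂ) (e e' : κ → ℕ) (x : ι → ℂ) :
    mono l (e + e') x = mono l e x * mono l e' x := by
  simp [mono, pow_add, prod_mul_distrib]

lemma mono_single (l : κ → (ι → ℂ) →ₗ[ℂ] ℂ) (j : κ) (k : ℕ) (x : ι → ℂ) :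
    mono l (Pi.single j k) x = l j x ^ k := by
  rw [mono, prod_eq_single j]
  · simp
  · intro i _ hi; simp [hi]
  · simp

omit [DecidableEq κ] in
lemma mono_isBigO (l : κ → (ι → ℂ) →ₗ[ℂ] ℂ) {e e' : κ → ℕ} (h : e' ≤ e) {f : ℂ → ι → ℂ}
    (hu : ∀ z, ‖f z‖ = 1) (L : Filter ℂ) :
    (fun z => mono l e (f z)) =O[L] fun z => mono l e' (f z) := by
  have e1 : e = e' + (e - e') := (add_tsub_cancel_of_le h).symm
  have h1 := (isBigO_refl (fun z => mono l e' (f z)) L).mul
    (isBigO_one_of_continuous (pf_mono l (e - e')).form.continuous hu L)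
  simp only [mul_one, ← mono_add, ← e1] at h1
  exact h1

/-- Exponents restricted to the complement of `I`. -/
def res (I : Finset κ) (e : κ → ℕ) : κ → ℕ := fun j => if j ∈ I then 0 else e j

omit [Fintype κ] in
lemma res_mono {I I' : Finset κ} (h : I ⊆ I') {e e' : κ → ℕ} (he : e' ≤ e) :
    res I' e' ≤ res I e := by
  intro j
  simp only [res]
  by_cases h1 : j ∈ I'
  · simp [h1]
  · simp [h1, show j ∉ I from fun h2 => h1 (h h2), he j]

omit [Fintype κ] in
lemma res_le (I : Finset κ) (e : κ → ℕ) : res I e ≤ e := by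
  intro j; simp only [res]; split_ifs <;> simp

lemma mono_res_ne_zero (l : κ → (ι → ℂ) →ₗ[ℂ] ℂ) {I : Finset κ} (e : κ → ℕ) {f : ℂ → ι → ℂ}
    {L : Filter ℂ} (h : ∀ j ∉ I, ∀ᶠ z in L, l j (f z) ≠ 0) :
    ∀ᶠ z in L, mono l (res I e) (f z) ≠ 0 := by
  have : ∀ᶠ z in L, ∀ j, j ∉ I → l j (f z) ≠ 0 := by
    refine eventually_all.mpr fun j => ?_
    by_cases hj : j ∈ I
    · simp [hj]
    · simpa [hj] using h j hj
  filter_upwards [this] with z hz
  refine prod_ne_zero_iff.mpr fun j _ => ?_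
  by_cases hj : j ∈ I
  · simp [res, hj]
  · exact pow_ne_zero _ (hz j hj)

/-- The exponent vector after the edges of index `< p` have been used. -/
def expo (u : Fin N → κ) (b : κ → ℕ) (p : ℕ) : κ → ℕ :=
  fun j => b j + (univ.filter fun σ : Fin N => p ≤ σ.val ∧ u σ = j).card

omit [Fintype κ] in
lemma expo_anti (u : Fin N → κ) (b : κ → ℕ) {p p' : ℕ} (h : p ≤ p') :
    expo u b p' ≤ expo u b p := by
  intro j
  refine Nat.add_le_add_left (card_le_card fun σ => ?_) _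
  simp only [mem_filter, mem_univ, true_and]
  exact fun h1 => ⟨h.trans h1.1, h1.2⟩

omit [Fintype κ] in
lemma expo_step (u : Fin N → κ) (b : κ → ℕ) {p : ℕ} {σ : Fin N} (h : p ≤ σ.val) :
    expo u b (σ.val + 1) + Pi.single (u σ) 1 ≤ expo u b p := by
  intro j
  by_cases hj : j = u σ
  · subst hj
    simp only [expo, Pi.add_apply, Pi.single_eq_same, add_assoc]
    refine Nat.add_le_add_left (card_lt_card ⟨fun τ => ?_, fun h1 => ?_⟩) _
    · simp only [mem_filter, mem_univ, true_and]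
      exact fun h1 => ⟨by omega, h1.2⟩
    · have := h1 (show σ ∈ univ.filter fun τ : Fin N => p ≤ τ.val ∧ u τ = u σ by simp [h])
      simp at this
  · simpa [hj] using expo_anti u b (show p ≤ σ.val + 1 by omega) j

/-- Curves of type `(I, p, Z)` for the polynomial `s`. -/
structure Typ (l : κ → (ι → ℂ) →ₗ[ℂ] ℂ) (u v : Fin N → κ) (b : κ → ℕ) (s : (ι → ℂ) → ℂ)
    (I : Finset κ) (p : ℕ) (Z : Finset (Fin N)) (f : ℂ → ι → ℂ) : Prop where
  ent : Entire f
  nc : NonConst f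
  van : ∀ i ∈ I, ∀ z, l i (f z) = 0
  rule : ∀ z₀, (fun z => s (f z)) =O[𝓝[≠] z₀] fun z => mono l (res I (expo u b p)) (f z)
  edge : ∀ σ : Fin N, σ.val < p → σ ∉ Z → u σ ∉ I → v σ ∉ I → ∀ z₀,
    (fun z => l (v σ) (f z) ^ (∑ j, expo u b 0 j)) =O[𝓝[≠] z₀] fun z => l (u σ) (f z)

variable {l : κ → (ι → ℂ) →ₗ[ℂ] ℂ} {u v : Fin N → κ} {b : κ → ℕ} {n : ℕ}

lemma finished (hl : GenPos n l) (hq : 4 * n ≤ Fintype.card κ)
    (hexp : ∀ S T : Finset κ, S ⊆ T → 2 * n ≤ S.card → T.card ≤ 4 * n → ∃ e, u e ∈ S ∧ v e ∉ T)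
    {s : (ι → ℂ) → ℂ} {I : Finset κ} {p : ℕ} {Z : Finset (Fin N)} {f : ℂ → ι → ℂ}
    (hZ : Z.card < I.card) (hfin : ∀ σ : Fin N, p ≤ σ.val → u σ ∉ I → v σ ∈ I)
    (h : Typ l u v b s I p Z f) : False := by
  classical
  have hsmall : ∀ z (S : Finset κ), (∀ j ∈ S, l j (f z) = 0) → S.card ≤ n := by
    intro z S hS
    by_contra hc
    obtain ⟨S', h1, h2⟩ := exists_subset_card_eq (show n + 1 ≤ S.card by omega)
    exact ne_zero_of_norm_one (h.ent.unit z) (hl S' h2 _ fun j hj => hS j (h1 hj))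
  have hI : I.card ≤ n := hsmall 0 I fun j hj => h.van j hj 0
  let B := univ.filter fun j => j ∉ I ∧ ∃ z, l j (f z) = 0
  let G := univ.filter fun j => j ∉ I ∧ ∀ z, l j (f z) ≠ 0
  have hB : B.card < 2 * n := by
    refine few_bad (m := n - I.card) hexp (I ∪ Z.image v) B ?_ fun j hj => ?_
    · have h1 := card_union_le I (Z.image v)
      have h2 : (Z.image v).card ≤ Z.card := card_image_le
      omega
    · obtain ⟨hjI, z, hz⟩ := (mem_filter.mp hj).2
      refine ⟨univ.filter fun j => j ∉ I ∧ l j (f z) = 0, by simp [hjI, hz], ?_, fun e he => ?_⟩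
      · have h1 := hsmall z (I ∪ univ.filter fun j => j ∉ I ∧ l j (f z) = 0) (by
          intro j hj
          rcases mem_union.mp hj with hj | hj
          · exact h.van j hj z
          · exact (mem_filter.mp hj).2.2)
        rw [card_union_of_disjoint (disjoint_left.mpr fun j h1 h2 => (mem_filter.mp h2).2.1 h1)]
          at h1
        omega
      · obtain ⟨h1, h2⟩ := (mem_filter.mp he).2
        by_cases hv : v e ∈ I
        · simp [hv]
        by_cases hZe : e ∈ Z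
        · exact mem_union_right _ (mem_union_right _ (mem_image_of_mem v hZe))
        have hp : e.val < p := by
          by_contra hp
          exact hv (hfin e (not_lt.mp hp) h1)
        have := zero_of_isBigO h.ent ((form_of_linear (l (v e))).pow _) (form_of_linear (l (u e)))
          (h.edge e hp hZe h1 hv z) h2
        have := pow_eq_zero_iff'.mp this
        simp [hv, this.1]
  have hcov : (univ : Finset κ) ⊆ I ∪ B ∪ G := by
    intro j _
    by_cases hj : j ∈ I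
    · simp [hj]
    by_cases hz : ∃ z, l j (f z) = 0
    · simp [B, hj, hz]
    · push Not at hz
      simp [G, hj, hz]
  have h1 := (card_le_card hcov).trans ((card_union_le _ _).trans
    (Nat.add_le_add_right (card_union_le _ _) _))
  rw [card_univ] at h1
  refine green (m := n - I.card) (G := G) hl h.ent
    (disjoint_left.mpr fun j h1 h2 => (mem_filter.mp h2).2.1 h1) h.van
    (fun j hj => (mem_filter.mp hj).2.2) (by omega) (by omega) h.nc

/-- The exponent vector of the monomial attached to the stratum `I` and the edge `σ`. -/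
def beta (u v : Fin N → κ) (b : κ → ℕ) (I : Finset κ) (σ : Fin N) : κ → ℕ :=
  res I (expo u b (σ.val + 1)) +
    Pi.single (v σ) (∑ j, expo u b 0 j - ∑ j, res I (expo u b (σ.val + 1)) j)

lemma sum_res_lt (u : Fin N → κ) (b : κ → ℕ) (I : Finset κ) (σ : Fin N) :
    ∑ j, res I (expo u b (σ.val + 1)) j < ∑ j, expo u b 0 j := by
  have h1 : ∑ j, res I (expo u b (σ.val + 1)) j ≤ ∑ j, expo u b (σ.val + 1) j :=
    sum_le_sum fun j _ => res_le _ _ j
  have h2 := sum_le_sum (s := univ) fun j _ => expo_step u b (Nat.zero_le σ.val) j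
  simp only [Pi.add_apply, sum_add_distrib, sum_pi_single', mem_univ, if_true] at h2
  omega

lemma sum_beta (u v : Fin N → κ) (b : κ → ℕ) (I : Finset κ) (σ : Fin N) :
    ∑ j, beta u v b I σ j = ∑ j, expo u b 0 j := by
  have := sum_res_lt u b I σ
  simp only [beta, Pi.add_apply, sum_add_distrib, sum_pi_single', mem_univ, if_true]
  omega

lemma small_mul {s : (ι → ℂ) → ℂ} {ε : ℕ → ℂ} (hε : Tendsto ε atTop (𝓝 0)) (hs : Continuous s) :
    ∀ η > 0, ∀ᶠ ν in atTop, ∀ x, ‖x‖ = 1 → ‖ε ν * s x‖ ≤ η := by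
  intro η hη
  obtain ⟨C, hC⟩ := (isCompact_sphere (0 : ι → ℂ) 1).exists_bound_of_continuousOn hs.continuousOn
  filter_upwards [Metric.tendsto_nhds.mp hε (η / (|C| + 1)) (by positivity)] with ν hν x hx
  rw [dist_zero_right, lt_div_iff₀ (by positivity)] at hν
  have h1 := (hC x (by simp [hx])).trans (le_abs_self C)
  rw [norm_mul]
  linarith only [hν, h1, norm_nonneg (ε ν), norm_nonneg (s x), mul_nonneg_of_nonpos_of_nonpos (Mathlib.Tactic.Linarith.sub_nonpos_of_le h1) (Mathlib.Tactic.Linarith.sub_nonpos_of_le (norm_nonneg (ε ν)))]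

/-- The general limiting step. -/
lemma limit_step {s : (ι → ℂ) → ℂ} {β : κ → ℕ} (hs : Form (∑ j, β j) s) {ε : ℕ → ℂ}
    (hε : Tendsto ε atTop (𝓝 0)) (hε0 : ∀ ν, ε ν ≠ 0) {I : Finset κ} {p p' : ℕ} (hp : p ≤ p')
    {Z : Finset (Fin N)} {f : ℕ → ℂ → ι → ℂ}
    (h : ∀ ν, Typ l u v b (fun x => mono l β x + ε ν * s x) I p Z (f ν))
    (hβ : ∀ ν z₀, (fun z => mono l β (f ν z)) =O[𝓝[≠] z₀]
      fun z => mono l (res I (expo u b p')) (f ν z)) :
    ∃ (H : ℂ → ι → ℂ) (I' : Finset κ), I ⊆ I' ∧ Entire H ∧ NonConst H ∧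
      (∀ i ∈ I', ∀ z, l i (H z) = 0) ∧ (∀ j ∉ I', ∀ z₀, ∀ᶠ z in 𝓝[≠] z₀, l j (H z) ≠ 0) ∧
      (∀ z₀, (fun z => s (H z)) =O[𝓝[≠] z₀] fun z => mono l (res I' (expo u b p')) (H z)) ∧
      (∀ σ : Fin N, σ.val < p → σ ∉ Z → u σ ∉ I' → v σ ∉ I' → ∀ z₀,
        (fun z => l (v σ) (H z) ^ (∑ j, expo u b 0 j)) =O[𝓝[≠] z₀] fun z => l (u σ) (H z)) ∧
      (∀ z₀, (fun z => mono l β (H z)) =O[𝓝[≠] z₀]
        fun z => mono l (res I' (expo u b p)) (H z)) ∧
      ((∀ ν z, mono l β (f ν z) + ε ν * s (f ν z) = 0) → ∀ z, mono l β (H z) = 0) := by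
  classical
  obtain ⟨H, hH, hHn, h1, h2⟩ := limit_exists (fun ν => (h ν).ent) fun ν => (h ν).nc
  let I' := univ.filter fun j => ∀ z, l j (H z) = 0
  have hII' : I ⊆ I' := by
    intro i hi
    simp only [I', mem_filter, mem_univ, true_and]
    exact h1 (l i) (fun _ _ => 0) (form_of_linear (l i)).continuous
      (fun η hη => Eventually.of_forall fun ν x _ => by simpa using hη.le)
      fun ν z => by simp [(h ν).van i hi z]
  have hnv : ∀ j ∉ I', ∀ z₀, ∀ᶠ z in 𝓝[≠] z₀, l j (H z) ≠ 0 := fun j hj =>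
    (hH.dichotomy (form_of_linear (l j))).resolve_left (by simpa [I'] using hj)
  refine ⟨H, I', hII', hH, hHn, fun i hi => (mem_filter.mp hi).2, hnv, ?_, ?_, ?_,
    h1 _ (fun ν x => ε ν * s x) (pf_mono l β).form.continuous (small_mul hε hs.continuous)⟩
  · refine h2 _ _ s s _ (fun _ => 0) hs hs (pf_mono l _).form tendsto_const_nhds
      (fun z₀ => mono_res_ne_zero l _ fun j hj => hnv j hj z₀) fun ν z₀ => ?_
    have a1 := ((h ν).rule z₀).trans
      (mono_isBigO l (res_mono Subset.rfl (expo_anti u b hp)) (h ν).ent.unit _)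
    have a2 := ((a1.sub (hβ ν z₀)).const_mul_left (ε ν)⁻¹).trans
      (mono_isBigO l (res_mono hII' le_rfl) (h ν).ent.unit _)
    refine a2.congr_left fun z => ?_
    have := hε0 ν
    field_simp
    ring
  · intro σ hσ hZ hu hv
    refine h2 _ _ _ (fun x => l (v σ) x ^ (∑ j, expo u b 0 j)) _ (fun _ => 0)
      ((form_of_linear (l (v σ))).pow _) ((form_of_linear (l (v σ))).pow _)
      (form_of_linear (l (u σ))) tendsto_const_nhds (hnv _ hu) fun ν z₀ => ?_
    simpa using (h ν).edge σ hσ hZ (fun h => hu (hII' h)) (fun h => hv (hII' h)) z₀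
  · exact h2 _ _ _ s _ ε (pf_mono l β).form hs (pf_mono l _).form hε
      (fun z₀ => mono_res_ne_zero l _ fun j hj => hnv j hj z₀) fun ν z₀ =>
        ((h ν).rule z₀).trans (mono_isBigO l (res_mono hII' le_rfl) (h ν).ent.unit _)

lemma new_edge {I : Finset κ} {p : ℕ} {σ : Fin N} (hp : p ≤ σ.val) (hu : u σ ∉ I)
    {H : ℂ → ι → ℂ} (hH : ∀ z, ‖H z‖ = 1) {L : Filter ℂ}
    (hnv : ∀ j ∉ I, ∀ᶠ z in L, l j (H z) ≠ 0)
    (h : (fun z => mono l (beta u v b I σ) (H z)) =O[L]
      fun z => mono l (res I (expo u b p)) (H z)) :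
    (fun z => l (v σ) (H z) ^ (∑ j, expo u b 0 j)) =O[L] fun z => l (u σ) (H z) := by
  have h1 : res I (expo u b (σ.val + 1)) + Pi.single (u σ) 1 ≤ res I (expo u b p) := by
    intro j
    have := expo_step u b hp j
    by_cases hj : j ∈ I
    · have : j ≠ u σ := fun h => hu (h ▸ hj)
      simp [res, hj, this]
    · simpa [res, hj] using this
  have h2 := h.trans (mono_isBigO l h1 hH L)
  simp only [beta, mono_add, mono_single, pow_one] at h2
  have h3 := (isBigO_refl (fun z => (mono l (res I (expo u b (σ.val + 1))) (H z))⁻¹) L).mul h2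
  have h4 := mono_res_ne_zero l (expo u b (σ.val + 1)) hnv
  have h5 := h3.congr' (h4.mono fun z hz => inv_mul_cancel_left₀ hz _)
    (h4.mono fun z hz => inv_mul_cancel_left₀ hz _)
  refine IsBigO.trans ?_ h5
  have h6 := mono_isBigO l (e := Pi.single (v σ) (∑ j, expo u b 0 j))
    (e' := Pi.single (v σ) (∑ j, expo u b 0 j - ∑ j, res I (expo u b (σ.val + 1)) j))
    (Pi.single_le_single.mpr (Nat.sub_le _ _)) hH L
  simpa only [mono_single] using h6

/-- All steps still needed by the state `(I, p)` lie in `R`. -/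
def Adm (u v : Fin N → κ) (R : Finset (Finset κ × Fin N)) (I : Finset κ) (p : ℕ) : Prop :=
  ∀ I', I ⊆ I' → ∀ σ : Fin N, p ≤ σ.val → u σ ∉ I' → v σ ∉ I' → (I', σ) ∈ R

theorem claim (hl : GenPos n l) (hq : 4 * n ≤ Fintype.card κ)
    (hexp : ∀ S T : Finset κ, S ⊆ T → 2 * n ≤ S.card → T.card ≤ 4 * n → ∃ e, u e ∈ S ∧ v e ∉ T)
    (hb : ∀ j, 1 ≤ b j) (R : Finset (Finset κ × Fin N)) :
    ∃ s, PF (∑ j, expo u b 0 j) s ∧ ∀ I p Z f, p ≤ N → Z.card < I.card → Adm u v R I p →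
      ¬ Typ l u v b s I p Z f := by
  induction R using Finset.induction_on_min_value
    (fun x : Finset κ × Fin N => x.1.card * N + x.2.val) with
  | empty =>
    refine ⟨_, pf_mono l _, fun I p Z f _ hZ hA h => finished hl hq hexp hZ (fun σ h1 h2 => ?_) h⟩
    by_contra h3
    simpa using hA I Subset.rfl σ h1 h2 h3
  | insert x R hx hmin ih =>
    obtain ⟨I₀, σ₀⟩ := x
    obtain ⟨s, hs, ih⟩ := ih
    have key : ∀ c : Finset κ × Fin (N + 1) × Finset (Fin N), ∀ᶠ e in 𝓝[≠] (0 : ℂ),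
        c.2.2.card < c.1.card → Adm u v (insert (I₀, σ₀) R) c.1 c.2.1.val → ∀ f,
          ¬ Typ l u v b (fun x => mono l (beta u v b I₀ σ₀) x + e * s x) c.1 c.2.1.val c.2.2 f := by
      rintro ⟨I, ⟨p, hpN⟩, Z⟩
      by_contra hcon
      rw [not_eventually] at hcon
      obtain ⟨ε, hε, hf⟩ := exists_seq_forall_of_frequently
        (hcon.and_eventually self_mem_nhdsWithin)
      simp only [not_forall, not_not] at hf
      have hε0 : ∀ ν, ε ν ≠ 0 := fun ν => (hf ν).2
      obtain ⟨hZ, hA, -⟩ := (hf 0).1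
      choose f hf using fun ν => (hf ν).1.choose_spec.choose_spec
      replace hε := hε.mono_right nhdsWithin_le_nhds
      have hs' : Form (∑ j, beta u v b I₀ σ₀ j) s := by rw [sum_beta]; exact hs.form
      have hmin' : ∀ σ : Fin N, p ≤ σ.val → u σ ∉ I → v σ ∉ I →
          I₀.card * N + σ₀.val ≤ I.card * N + σ.val := by
        intro σ h1 h2 h3
        rcases mem_insert.mp (hA I Subset.rfl σ h1 h2 h3) with h | h
        · obtain ⟨rfl, rfl⟩ := Prod.mk.inj h
          exact le_rfl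
        · exact hmin _ h
      by_cases hfin : ∀ σ : Fin N, p ≤ σ.val → u σ ∉ I → v σ ∈ I
      · exact finished hl hq hexp hZ hfin (hf 0)
      push Not at hfin
      obtain ⟨σ₁, h1, h2, h3⟩ := hfin
      by_cases hII : I ⊆ I₀
      swap
      · obtain ⟨i, hi, hi0⟩ := not_subset.mp hII
        obtain ⟨H, I', a1, a2, a3, a4, a5, a6, a7, -⟩ := limit_step hs' hε hε0 le_rfl hf (by
          intro ν z₀
          refine (isBigO_zero _ _).congr_left fun z => ?_
          refine (prod_eq_zero (mem_univ i) ?_).symm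
          rw [(hf ν).van i hi z]
          refine zero_pow ?_
          have := hb i
          simp only [beta, res, expo, Pi.add_apply, hi0, if_false]
          omega)
        refine ih I' p Z H (by omega) (hZ.trans_le (card_le_card a1)) ?_ ⟨a2, a3, a4, a6, a7⟩
        intro I'' b1 σ b2 b3 b4
        refine (mem_insert.mp (hA I'' (a1.trans b1) σ b2 b3 b4)).resolve_left fun h => ?_
        obtain ⟨rfl, rfl⟩ := Prod.mk.inj h
        exact hII (a1.trans b1)
      have hcard : I₀.card ≤ I.card := by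
        have := hmin' σ₁ h1 h2 h3
        have h4 := σ₁.isLt
        by_contra h5
        have : (I.card + 1) * N ≤ I₀.card * N := Nat.mul_le_mul_right _ (by omega)
        nlinarith
      obtain rfl : I = I₀ := eq_of_subset_of_card_le hII hcard
      by_cases hσ : σ₀.val < p
      · obtain ⟨H, I', a1, a2, a3, a4, a5, a6, a7, -⟩ := limit_step hs' hε hε0 le_rfl hf
          fun ν z₀ => mono_isBigO l ((res_mono Subset.rfl (expo_anti u b hσ)).trans le_self_add)
            (hf ν).ent.unit _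
        refine ih I' p Z H (by omega) (hZ.trans_le (card_le_card a1)) ?_ ⟨a2, a3, a4, a6, a7⟩
        intro I'' b1 σ b2 b3 b4
        refine (mem_insert.mp (hA I'' (a1.trans b1) σ b2 b3 b4)).resolve_left fun h => ?_
        obtain ⟨rfl, rfl⟩ := Prod.mk.inj h
        omega
      · obtain ⟨H, I', a1, a2, a3, a4, a5, a6, a7, a8, -⟩ := limit_step (p' := σ₀.val + 1) hs' hε hε0
          (by omega) hf fun ν z₀ => mono_isBigO l le_self_add (hf ν).ent.unit _
        have hA' : Adm u v R I' (σ₀.val + 1) := by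
          intro I'' b1 σ b2 b3 b4
          refine (mem_insert.mp (hA I'' (a1.trans b1) σ (by omega) b3 b4)).resolve_left
            fun h => ?_
          obtain ⟨rfl, rfl⟩ := Prod.mk.inj h
          omega
        have hlt : ∀ σ : Fin N, σ.val < σ₀.val + 1 → u σ ∉ I' → v σ ∉ I' → σ ≠ σ₀ →
            σ.val < p := by
          intro σ b1 b2 b3 b4
          by_contra b5
          have := hmin' σ (not_lt.mp b5) (fun h => b2 (a1 h)) fun h => b3 (a1 h)
          exact b4 (Fin.ext (by omega))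
        by_cases hI' : I' = I
        · subst hI'
          refine ih I' (σ₀.val + 1) Z H σ₀.isLt hZ hA' ⟨a2, a3, a4, a6, fun σ b1 b2 b3 b4 => ?_⟩
          by_cases hσσ : σ = σ₀
          · subst hσσ
            exact fun z₀ => new_edge (not_lt.mp hσ) b3 a2.unit (fun j hj => a5 j hj z₀) (a8 z₀)
          · exact a7 σ (hlt σ b1 b3 b4 hσσ) b2 b3 b4
        · have hc : I.card < I'.card := card_lt_card (lt_of_le_of_ne a1 (Ne.symm hI'))
          refine ih I' (σ₀.val + 1) (insert σ₀ Z) H σ₀.isLt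
            ((card_insert_le _ _).trans_lt (by omega)) hA'
            ⟨a2, a3, a4, a6, fun σ b1 b2 b3 b4 => ?_⟩
          simp only [mem_insert, not_or] at b2
          exact a7 σ (hlt σ b1 b3 b4 b2.1) b2.2 b3 b4
    obtain ⟨e, he⟩ := (eventually_all.mpr key).exists
    refine ⟨_, (sum_beta u v b I₀ σ₀ ▸ pf_mono l (beta u v b I₀ σ₀)).add_smul hs e,
      fun I p Z f hp hZ hA => he (I, ⟨p, by omega⟩, Z) hZ hA f⟩

theorem exists_hyperbolic_of_expander (hl : GenPos n l) (hq : 4 * n ≤ Fintype.card κ)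
    (hexp : ∀ S T : Finset κ, S ⊆ T → 2 * n ≤ S.card → T.card ≤ 4 * n → ∃ e, u e ∈ S ∧ v e ∉ T)
    (hb : ∀ j, 1 ≤ b j) :
    ∃ s : (ι → ℂ) → ℂ, PF (∑ j, expo u b 0 j) s ∧
      ∀ f, Entire f → NonConst f → ¬ ∀ z, s (f z) = 0 := by
  obtain ⟨s, hs, h⟩ := claim hl hq hexp hb univ
  by_contra hcon
  push Not at hcon
  have hε : Tendsto (fun ν : ℕ => (1 / ((ν : ℂ) + 1))) atTop (𝓝 0) :=
    tendsto_one_div_add_atTop_nhds_zero_nat
  have hε0 : ∀ ν : ℕ, (1 / ((ν : ℂ) + 1)) ≠ 0 := fun ν =>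
    one_div_ne_zero (by exact_mod_cast Nat.succ_ne_zero ν)
  choose f h1 h2 h3 using fun ν : ℕ =>
    hcon _ ((pf_mono l (expo u b 0)).add_smul hs (1 / ((ν : ℂ) + 1)))
  have hres : res ∅ (expo u b 0) = expo u b 0 := by funext j; simp [res]
  obtain ⟨H, I', a1, a2, a3, a4, a5, a6, a7, -, a9⟩ := limit_step (l := l) (u := u) (v := v) (b := b)
    (β := expo u b 0) (I := ∅) (p := 0) (p' := 0) (Z := ∅) hs.form hε hε0 le_rfl
    (fun ν => ⟨h1 ν, h2 ν, by simp, fun z₀ => (isBigO_zero _ _).congr_left fun z => (h3 ν z).symm,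
      by simp⟩) (fun ν z₀ => by rw [hres])
  have hI' : I'.Nonempty := by
    by_contra hI'
    obtain rfl := not_nonempty_iff_eq_empty.mp hI'
    obtain ⟨z, hz⟩ := (mono_res_ne_zero l (expo u b 0) fun j hj => a5 j hj 0).exists
    rw [hres] at hz
    exact hz (a9 h3 z)
  exact h I' 0 ∅ H (Nat.zero_le _) (card_pos.mpr hI') (fun _ _ _ _ _ _ => mem_univ _)
    ⟨a2, a3, a4, a6, a7⟩

theorem exists_brody {n d : ℕ} (hn : 1 ≤ n) (hd : 56 * n ≤ d) :
    ∃ F : MvPolynomial (Fin (n + 1)) ℂ, F.IsHomogeneous d ∧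
      ∀ f, Entire f → NonConst f → ¬ ∀ z, eval (f z) F = 0 := by
  obtain ⟨φ, hφ⟩ := exists_expander hn
  let l : Fin (8 * n) → (Fin (n + 1) → ℂ) →ₗ[ℂ] ℂ := fun j =>
    ∑ i : Fin (n + 1), ((j : ℕ) : ℂ) ^ (i : ℕ) • LinearMap.proj i
  have hl : GenPos n l := by
    intro S hS x hx
    let e : Fin (n + 1) ≃ S := (S.equivFinOfCardEq hS).symm
    refine Matrix.eq_zero_of_forall_index_sum_mul_pow_eq_zero
      (f := fun k => (((e k : Fin (8 * n)) : ℕ) : ℂ)) (v := x) (fun k k' h => ?_) fun k => ?_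
    · exact e.injective (Subtype.ext (Fin.ext (Nat.cast_injective (R := ℂ) h)))
    · have := hx (e k) (e k).2
      simpa [l, mul_comm] using this
  let e : Fin (8 * n * 6) ≃ Fin (8 * n) × Fin 6 := finProdFinEquiv.symm
  let j₀ : Fin (8 * n) := ⟨0, by omega⟩
  let b : Fin (8 * n) → ℕ := fun j => 1 + (Pi.single j₀ (d - 56 * n) : Fin (8 * n) → ℕ) j
  obtain ⟨s, ⟨F, hF, hs⟩, h⟩ := exists_hyperbolic_of_expander (l := l) (u := fun σ => (e σ).1)
    (v := fun σ => φ (e σ)) (b := b) hl (by simp; omega) (by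
      intro S T h1 h2 h3
      obtain ⟨x, hx⟩ := hφ S T h1 h2 h3
      exact ⟨e.symm x, by simpa using hx⟩) (fun j => by simp [b])
  have hdeg : ∑ j, expo (fun σ => (e σ).1) b 0 j = d := by
    simp only [expo, b, sum_add_distrib, sum_pi_single', mem_univ, if_true, Nat.zero_le, true_and]
    rw [← card_eq_sum_card_fiberwise (fun _ _ => mem_univ _)]
    simp
    omega
  rw [hdeg] at hF
  exact ⟨F, hF, fun f h1 h2 h3 => h f h1 h2 fun z => by rw [hs, h3]⟩

end Pool.Agent.Work.MP_97b122_ag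
end

-- merged part: Pool.Agent.Work.MP_97b122_ag.Smooth
section
/-!
Small perturbations of a Brody hyperbolic hypersurface are Brody hyperbolic, and non-singular
perturbations are dense.
-/

namespace Pool.Agent.Work.MP_97b122_ag

open Filter Topology Finset MvPolynomial MeasureTheory

variable {ι : Type} [Fintype ι]

/-- The perturbation of `F` by a diagonal form. -/
noncomputable def pert (F : MvPolynomial ι ℂ) (d : ℕ) (c : ι → ℂ) : MvPolynomial ι ℂ :=
  F + ∑ i, C (c i) * X i ^ d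

lemma pert_hom {F : MvPolynomial ι ℂ} {d : ℕ} (hF : F.IsHomogeneous d) (c : ι → ℂ) :
    (pert F d c).IsHomogeneous d :=
  hF.add (IsHomogeneous.sum _ _ _ fun i _ => isHomogeneous_C_mul_X_pow _ i d)

lemma pert_open {F : MvPolynomial ι ℂ} (d : ℕ)
    (h : ∀ f, Entire f → NonConst f → ¬ ∀ z, eval (f z) F = 0) :
    ∀ᶠ c in 𝓝 (0 : ι → ℂ), ∀ f, Entire f → NonConst f → ¬ ∀ z, eval (f z) (pert F d c) = 0 := by
  by_contra hcon
  rw [not_eventually] at hcon
  obtain ⟨c, hc, hf⟩ := exists_seq_forall_of_frequently hcon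
  push Not at hf
  choose f h1 h2 h3 using hf
  obtain ⟨H, hH, hHn, h4, -⟩ := limit_exists h1 h2
  refine h H hH hHn (h4 (fun x => eval x F) (fun ν x => ∑ i, c ν i * x i ^ d)
    (MvPolynomial.continuous_eval F) (fun η hη => ?_) fun ν z => ?_)
  · filter_upwards [Metric.tendsto_nhds.mp hc (η / (Fintype.card ι + 1)) (by positivity)]
      with ν hν x hx
    rw [dist_zero_right, lt_div_iff₀ (by positivity)] at hν
    have h5 : ∀ i, ‖c ν i * x i ^ d‖ ≤ ‖c ν‖ := by
      intro i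
      rw [norm_mul, norm_pow]
      have a1 : ‖x i‖ ^ d ≤ 1 := pow_le_one₀ (norm_nonneg _) (hx ▸ norm_le_pi_norm x i)
      have a2 := norm_le_pi_norm (c ν) i
      linarith only [a2, a1, norm_nonneg (c ν i), pow_nonneg (norm_nonneg (x i)) d, mul_nonneg_of_nonpos_of_nonpos (Mathlib.Tactic.Linarith.sub_nonpos_of_le a1) (Mathlib.Tactic.Linarith.sub_nonpos_of_le (norm_nonneg (c ν i)))]
    have h6 := (norm_sum_le _ _).trans (sum_le_card_nsmul univ _ _ fun i _ => h5 i)
    rw [card_univ, nsmul_eq_mul] at h6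
    linarith only [hν, h6, norm_nonneg (c ν)]
  · simpa [pert] using h3 ν z

lemma eval_pderiv_pert (F : MvPolynomial ι ℂ) (d : ℕ) (c x : ι → ℂ) (i : ι) :
    eval x (pderiv i (pert F d c)) = eval x (pderiv i F) + c i * (d * x i ^ (d - 1)) := by
  classical
  simp only [pert, map_add, map_sum, pderiv_C_mul, pderiv_pow]
  congr 1
  rw [sum_eq_single i]
  · simp
  · intro j _ hj
    simp [pderiv_X_of_ne hj]
  · simp

lemma pert_dense {F : MvPolynomial ι ℂ} {d : ℕ} (hF : F.IsHomogeneous d) (hd : 0 < d) :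
    Dense {c : ι → ℂ | ∀ x : ι → ℂ, x ≠ 0 → ∃ i, eval x (pderiv i (pert F d c)) ≠ 0} := by
  classical
  let pt : Finset ι → (ι → ℂ) → ι → ℂ := fun A y i => if i ∈ A then Complex.exp (y i) else 0
  let Φ : Finset ι → (ι → ℂ) → ι → ℂ := fun A y i =>
    if i ∈ A then -eval (pt A y) (pderiv i F) * Complex.exp (-((d - 1 : ℕ) : ℂ) * y i) / d else y i
  have hpt : ∀ A, Differentiable ℂ (pt A) := by
    intro A
    refine differentiable_pi.mpr fun i => ?_
    by_cases hi : i ∈ A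
    · simp only [pt, hi, if_true]; fun_prop
    · simp only [pt, hi, if_false]; fun_prop
  have hΦ : ∀ A, Differentiable ℂ (Φ A) := by
    intro A
    refine differentiable_pi.mpr fun i => ?_
    by_cases hi : i ∈ A
    · simp only [Φ, hi, if_true]
      have h1 : Differentiable ℂ fun y => eval (pt A y) (pderiv i F) :=
        (form_eval (hF.pderiv (i := i))).1 |> fun h =>
          Differentiable.comp (g := fun x => eval x (pderiv i F))
            (fun x => (h x).differentiableAt) (hpt A)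
      have h2 : Differentiable ℂ fun y : ι → ℂ => Complex.exp (-((d - 1 : ℕ) : ℂ) * y i) := by
        fun_prop
      simp only [div_eq_mul_inv]
      exact (h1.neg.mul h2).mul_const _
    · simp only [Φ, hi, if_false]; fun_prop
  have hnull : ∀ (A : Finset ι) (a : ι), volume (Φ A '' {y | y a = 0}) = 0 := by
    intro A a
    refine addHaar_image_eq_zero_of_differentiableOn_of_addHaar_eq_zero volume
      ((hΦ A).restrictScalars ℝ).differentiableOn ?_
    have := Measure.addHaar_submodule (volume : Measure (ι → ℂ))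
      (LinearMap.ker (LinearMap.proj (R := ℝ) (φ := fun _ : ι => ℂ) a)) (by
        intro h
        have : (fun _ => (1 : ℂ)) ∈ LinearMap.ker
            (LinearMap.proj (R := ℝ) (φ := fun _ : ι => ℂ) a) := h ▸ Submodule.mem_top
        simp at this)
    exact this
  refine Measure.dense_of_ae (μ := volume) ?_
  have hall : ∀ᵐ c : ι → ℂ, ∀ (A : Finset ι) (a : ι), c ∉ Φ A '' {y | y a = 0} :=
    ae_all_iff.mpr fun A => ae_all_iff.mpr fun a => measure_eq_zero_iff_ae_notMem.mp (hnull A a)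
  filter_upwards [hall] with c hc x hx
  by_contra hcon
  push Not at hcon
  obtain ⟨a, ha⟩ := Function.ne_iff.mp hx
  have ha : x a ≠ 0 := ha
  let x' := (x a)⁻¹ • x
  have h1 : ∀ i, eval x' (pderiv i (pert F d c)) = 0 := fun i => by
    have := (form_eval ((pert_hom hF c).pderiv (i := i))).2 (x a)⁻¹ x
    simp only [hcon i, mul_zero] at this
    exact this
  have h2 : x' a = 1 := by simp [x', ha]
  let A := univ.filter fun i => x' i ≠ 0
  let y : ι → ℂ := fun i => if i ∈ A then Complex.log (x' i) else c i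
  have hy : pt A y = x' := by
    funext i
    by_cases hi : i ∈ A
    · simp only [pt, y, hi, if_true]
      exact Complex.exp_log (mem_filter.mp hi).2
    · simp only [pt, hi, if_false]
      by_contra h
      exact hi (mem_filter.mpr ⟨mem_univ _, Ne.symm h⟩)
  refine hc A a ⟨y, ?_, funext fun i => ?_⟩
  · have : a ∈ A := by simp [A, h2]
    simp [y, this, h2]
  · by_cases hi : i ∈ A
    · have hxi : x' i ≠ 0 := (mem_filter.mp hi).2
      have h3 := h1 i
      rw [eval_pderiv_pert] at h3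
      simp only [Φ, hi, if_true, hy, y]
      rw [neg_mul ((d - 1 : ℕ) : ℂ), Complex.exp_neg, Complex.exp_nat_mul, Complex.exp_log hxi,
        eq_neg_of_add_eq_zero_left h3]
      have : (d : ℂ) ≠ 0 := by exact_mod_cast hd.ne'
      field_simp
    · simp only [Φ, hi, if_false, y]

theorem exists_smooth_brody {n d : ℕ} (hn : 1 ≤ n) (hd : 56 * n ≤ d) :
    ∃ F : MvPolynomial (Fin (n + 1)) ℂ, F.IsHomogeneous d ∧
      (∀ x : Fin (n + 1) → ℂ, x ≠ 0 → ∃ i, eval x (pderiv i F) ≠ 0) ∧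
      ∀ f, Entire f → NonConst f → ¬ ∀ z, eval (f z) F = 0 := by
  obtain ⟨F, hF, h⟩ := exists_brody hn hd
  obtain ⟨c, h1, h2⟩ := (pert_dense hF (by omega)).inter_nhds_nonempty (pert_open d h)
  exact ⟨pert F d c, pert_hom hF c, h1, h2⟩

end Pool.Agent.Work.MP_97b122_ag
end

-- merged part: Pool.Agent.Work.MP_97b122_ag.Kob
section
/-!
Brody's theorem: from the absence of entire curves to Kobayashi hyperbolicity.
-/

namespace Pool.Agent.Work.MP_97b122_ag

open Filter Topology Metric MvPolynomial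
open scoped ComplexConjugate

section
variable {ι : Type} [Fintype ι]

lemma sph_bound {s : (ι → ℂ) → ℂ} (hs : Continuous s)
    (h : ∀ f, Entire f → NonConst f → ¬ ∀ z, s (f z) = 0) :
    ∃ C : ℝ, ∀ g : ℂ → ι → ℂ, (∀ z, ‖g z‖ = 1) → (∀ z ∈ ball (0 : ℂ) 1, HolAt g z) →
      (∀ z ∈ ball (0 : ℂ) 1, s (g z) = 0) → ∀ w ∈ closedBall (0 : ℂ) (1 / 2), sph g w ≤ C := by
  by_contra hcon
  push Not at hcon
  choose g h1 h2 h3 w hw h4 using fun ν : ℕ => hcon (8 * ((ν : ℝ) + 1))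
  have hsub : ∀ ν, closedBall (w ν) (3 * (1 / 8)) ⊆ ball (0 : ℂ) 1 := by
    intro ν z hz
    have a1 := mem_closedBall_zero_iff.mp (hw ν)
    rw [mem_closedBall, dist_eq_norm] at hz
    rw [mem_ball_zero_iff]
    have a2 := norm_add_le (z - w ν) (w ν)
    simp only [sub_add_cancel] at a2
    linarith only [hz, a1, a2]
  choose a ρ b1 b2 b3 b4 using fun ν : ℕ => rescale (h1 ν) (w := w ν) (ε := 1 / 8) (R := ν + 1)
    (by norm_num) (by positivity) (fun z hz => h2 ν z (hsub ν hz)) (by linarith only [h4, h4 ν])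
  obtain ⟨H, hH, hHn, hc⟩ := compactness (g := fun ν z => g ν (a ν + ρ ν • z))
    (fun ν z => h1 ν _)
    (fun ν z hz => HolAt.comp (φ := fun z => a ν + ρ ν • z) (h2 ν _ (hsub ν (b2 ν z hz)))
      (analyticAt_aff _ _ _)) b4 b3
  refine h H hH hHn fun z => ?_
  refine tendsto_nhds_unique ((hs.tendsto _).comp (hc.pt z)) (tendsto_const_nhds.congr' ?_)
  refine uf_le ?_
  obtain ⟨N, hN⟩ := exists_nat_ge ‖z‖
  filter_upwards [eventually_ge_atTop N] with ν hν
  refine (h3 ν _ (hsub ν (b2 ν z ?_))).symm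
  rw [mem_ball_zero_iff]
  have : (N : ℝ) ≤ ν := by exact_mod_cast hν
  linarith only [hN, this]

lemma lip_zero {s : (ι → ℂ) → ℂ} (hs : Continuous s)
    (h : ∀ f, Entire f → NonConst f → ¬ ∀ z, s (f z) = 0) :
    ∃ K > 0, ∀ g : ℂ → ι → ℂ, (∀ z, ‖g z‖ = 1) → (∀ z ∈ ball (0 : ℂ) 1, HolAt g z) →
      (∀ z ∈ ball (0 : ℂ) 1, s (g z) = 0) → ∀ w, ‖proj (g w) - proj (g 0)‖ ≤ K * ‖w‖ := by
  obtain ⟨C, hC⟩ := sph_bound hs h
  refine ⟨max C 4, by positivity, fun g h1 h2 h3 w => ?_⟩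
  by_cases hw : ‖w‖ ≤ 1 / 2
  · have := (convex_closedBall (0 : ℂ) (1 / 2)).norm_image_sub_le_of_norm_fderiv_le (𝕜 := ℝ)
      (f := fun w => proj (g w)) (C := C)
      (fun x hx => ((h2 x (closedBall_subset_ball (by norm_num) hx)).contDiffAt
        (ne_zero_of_norm_one (h1 x))).differentiableAt one_ne_zero) (hC g h1 h2 h3)
      (mem_closedBall_self (by norm_num)) (mem_closedBall_zero_iff.mpr hw)
    rw [sub_zero] at this
    exact this.trans (mul_le_mul_of_nonneg_right (le_max_left _ _) (norm_nonneg _))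
  · have a1 := norm_sub_le (proj (g w)) (proj (g 0))
    have a2 := norm_proj_le (g w)
    have a3 := norm_proj_le (g 0)
    have a4 := mul_le_mul_of_nonneg_right (le_max_right C 4) (norm_nonneg w)
    linarith only [hw, a1, a2, a3, a4]

end

lemma moebius_lt {a w : ℂ} (ha : ‖a‖ < 1) (hw : ‖w‖ < 1) : ‖w + a‖ < ‖1 + conj a * w‖ := by
  refine lt_of_pow_lt_pow_left₀ 2 (norm_nonneg _) ?_
  have h1 : ‖1 + conj a * w‖ ^ 2 - ‖w + a‖ ^ 2 = (1 - ‖a‖ ^ 2) * (1 - ‖w‖ ^ 2) := by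
    simp only [← Complex.normSq_eq_norm_sq, Complex.normSq_apply, Complex.add_re, Complex.add_im,
      Complex.mul_re, Complex.mul_im, Complex.conj_re, Complex.conj_im, Complex.one_re,
      Complex.one_im]
    ring
  have h2 : 0 < 1 - ‖a‖ ^ 2 := by linarith only [ha, norm_nonneg a, mul_nonneg_of_nonpos_of_nonpos (le_of_lt (Mathlib.Tactic.Linarith.sub_neg_of_lt ha)) (Mathlib.Tactic.Linarith.sub_nonpos_of_le (norm_nonneg a))]
  have h3 : 0 < 1 - ‖w‖ ^ 2 := by linarith only [hw, norm_nonneg w, mul_nonneg_of_nonpos_of_nonpos (le_of_lt (Mathlib.Tactic.Linarith.sub_neg_of_lt hw)) (Mathlib.Tactic.Linarith.sub_nonpos_of_le (norm_nonneg w))]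
  linarith only [h1, h2, h3, mul_pos h2 h3]

lemma le_artanh {t : ℝ} (h0 : 0 ≤ t) (h1 : t < 1) : t ≤ Real.artanh t := by
  rw [Real.artanh_eq_half_log ⟨by linarith, h1.le⟩]
  have h2 : 0 < 1 - t := by linarith
  have h3 := Real.le_log_one_add_of_nonneg (show 0 ≤ 2 * t / (1 - t) by positivity)
  have e1 : 1 + 2 * t / (1 - t) = (1 + t) / (1 - t) := by field_simp; ring
  have e2 : 2 * (2 * t / (1 - t)) / (2 * t / (1 - t) + 2) = 2 * t := by field_simp; ring
  rw [e1, e2] at h3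
  linarith only [h3]

variable {n : ℕ}

/-- Unit representatives of a map into projective space. -/
noncomputable def nf (f : ℂ → PS n) (z : ℂ) : Fin (n + 1) → ℂ := nrm (f z).rep

lemma nf_unit (f : ℂ → PS n) (z : ℂ) : ‖nf f z‖ = 1 := norm_nrm (f z).rep_nonzero

lemma HolOn.holAt {f : ℂ → PS n} {U : Set ℂ} (h : HolOn f U) {z₀ : ℂ} (hz : z₀ ∈ U) :
    HolAt (nf f) z₀ := by
  obtain ⟨G, hG, hev⟩ := h z₀ hz
  have key : ∀ᶠ z in 𝓝 z₀, ∃ c : ℂ, c ≠ 0 ∧ nf f z = c • G z := by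
    filter_upwards [hev] with z ⟨h0, hz⟩
    obtain ⟨a, ha⟩ := Projectivization.exists_smul_eq_mk_rep ℂ (G z) h0
    have hr : (‖(f z).rep‖ : ℂ) ≠ 0 :=
      Complex.ofReal_ne_zero.mpr (norm_ne_zero_iff.mpr (f z).rep_nonzero)
    refine ⟨(‖(f z).rep‖ : ℂ)⁻¹ * a, mul_ne_zero (inv_ne_zero hr) a.ne_zero, ?_⟩
    rw [nf, nrm, mul_smul]
    congr 1
    rw [hz, ← ha]; rfl
  obtain ⟨i, hi⟩ := Function.ne_iff.mp hev.self_of_nhds.1
  have hGh : HolAt G z₀ := ⟨fun _ => 1, fun _ => one_ne_zero, by simpa using hG⟩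
  obtain ⟨h1, h2⟩ := hGh.chart hi
  refine holAt_of_chart (i := i) (h1.congr ?_) ?_
  · filter_upwards [key] with z ⟨c, hc, hz⟩
    rw [hz, chart_smul hc]
  · filter_upwards [key, h2] with z ⟨c, hc, hz⟩ h3
    rw [hz]; exact mul_ne_zero hc h3

lemma eval_nf {d : ℕ} {F : MvPolynomial (Fin (n + 1)) ℂ} (hF : F.IsHomogeneous d)
    {f : ℂ → PS n} {z : ℂ} (h : f z ∈ zeroLocus F) : eval (nf f z) F = 0 := by
  have := (form_eval hF).2 ((‖(f z).rep‖ : ℂ))⁻¹ (f z).rep
  have h' : eval (f z).rep F = 0 := h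
  simp only [h', mul_zero] at this
  exact this

lemma proj_nf (f : ℂ → PS n) (z : ℂ) : proj (nf f z) = proj (f z).rep :=
  proj_nrm (f z).rep_nonzero

lemma eq_of_proj_eq {p q : PS n} (h : proj p.rep = proj q.rep) : p = q := by
  obtain ⟨c, hc, h1⟩ := exists_smul_of_proj_eq p.rep_nonzero q.rep_nonzero h
  rw [← p.mk_rep, ← q.mk_rep, eq_comm, Projectivization.mk_eq_mk_iff']
  exact ⟨c, h1.symm⟩

theorem kobayashi_of_brody {d : ℕ} {F : MvPolynomial (Fin (n + 1)) ℂ} (hF : F.IsHomogeneous d)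
    (h : ∀ f, Entire f → NonConst f → ¬ ∀ z, eval (f z) F = 0) :
    KobayashiHyperbolic (zeroLocus F) := by
  obtain ⟨K, hK, hlip⟩ := lip_zero (MvPolynomial.continuous_eval F) h
  have hdisc : ∀ (f : ℂ → PS n) (a b : ℂ), HolOn f (ball 0 1) →
      Set.MapsTo f (ball 0 1) (zeroLocus F) → a ∈ ball (0 : ℂ) 1 → b ∈ ball (0 : ℂ) 1 →
      ‖proj (f a).rep - proj (f b).rep‖ ≤ K * poincare a b := by
    intro f a b hf hX ha hb
    rw [mem_ball_zero_iff] at ha hb
    let φ : ℂ → ℂ := fun w => (w + a) / (1 + conj a * w)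
    have hden : ∀ w : ℂ, ‖w‖ < 1 → 1 + conj a * w ≠ 0 := fun w hw =>
      norm_pos_iff.mp ((norm_nonneg _).trans_lt (moebius_lt ha hw))
    have hφ : ∀ w ∈ ball (0 : ℂ) 1, φ w ∈ ball (0 : ℂ) 1 := by
      intro w hw
      rw [mem_ball_zero_iff] at hw ⊢
      simp only [φ, norm_div]
      exact (div_lt_one (norm_pos_iff.mpr (hden w hw))).mpr (moebius_lt ha hw)
    have hφa : ∀ w ∈ ball (0 : ℂ) 1, AnalyticAt ℂ φ w := fun w hw =>
      (analyticAt_id.add analyticAt_const).div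
        (analyticAt_const.add (analyticAt_const.mul analyticAt_id))
        (hden w (mem_ball_zero_iff.mp hw))
    have hlt : ‖a - b‖ < ‖1 - conj a * b‖ := by
      have := moebius_lt (a := -a) (w := b) (by simpa using ha) hb
      rw [norm_sub_rev]
      simpa [sub_eq_add_neg] using this
    have hd : 1 - conj a * b ≠ 0 := norm_pos_iff.mp ((norm_nonneg _).trans_lt hlt)
    have ha2 : 1 - conj a * a ≠ 0 := by
      have := moebius_lt (a := -a) (w := a) (by simpa using ha) ha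
      refine norm_pos_iff.mp ((norm_nonneg _).trans_lt (this.trans_eq ?_))
      simp [sub_eq_add_neg]
    have := hlip (fun w => nf f (φ w)) (fun w => nf_unit f _)
      (fun w hw => HolAt.comp (hf.holAt (hφ w hw)) (hφa w hw))
      (fun w hw => eval_nf hF (hX (hφ w hw))) ((b - a) / (1 - conj a * b))
    have e0 : φ 0 = a := by simp [φ]
    have e1 : φ ((b - a) / (1 - conj a * b)) = b := by
      have e2 : 1 + conj a * ((b - a) / (1 - conj a * b)) = (1 - conj a * a) / (1 - conj a * b) := by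
        field_simp; ring
      have e3 : (b - a) / (1 - conj a * b) + a = b * (1 - conj a * a) / (1 - conj a * b) := by
        rw [div_add' _ _ _ hd]; congr 1; ring
      simp only [φ, e2, e3]
      rw [div_div_div_cancel_right₀ hd, mul_div_assoc, div_self ha2, mul_one]
    simp only [e0, e1, proj_nf] at this
    rw [norm_sub_rev]
    refine this.trans (mul_le_mul_of_nonneg_left ?_ hK.le)
    rw [norm_div, norm_sub_rev b a]
    exact le_artanh (by positivity) ((div_lt_one (norm_pos_iff.mpr hd)).mpr hlt)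
  have hchain : ∀ p q L, Chain (zeroLocus F) p q L → ‖proj p.rep - proj q.rep‖ ≤ K * L := by
    intro p q L hc
    induction hc with
    | nil p => simp
    | cons f a b q L h1 h2 h3 h4 _ ih =>
      have := norm_sub_le_norm_sub_add_norm_sub (proj (f a).rep) (proj (f b).rep) (proj q.rep)
      have := hdisc f a b h1 h2 h3 h4
      linarith
  intro p _ q _ hpq
  have hpos : 0 < ‖proj p.rep - proj q.rep‖ :=
    norm_pos_iff.mpr (sub_ne_zero.mpr fun h => hpq (eq_of_proj_eq h))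
  refine lt_of_lt_of_le (ENNReal.ofReal_pos.mpr (div_pos hpos hK)) ?_
  refine le_iInf₂ fun L hL => ENNReal.ofReal_le_ofReal ?_
  rw [div_le_iff₀ hK, mul_comm]
  exact hchain p q L hL

theorem main {n d : ℕ} (hn : 1 ≤ n) (hd : 56 * n ≤ d) :
    ∃ F : MvPolynomial (Fin (n + 1)) ℂ, F ≠ 0 ∧ F.IsHomogeneous d ∧
      (∀ x : Fin (n + 1) → ℂ, x ≠ 0 → ∃ i, eval x (pderiv i F) ≠ 0) ∧
      KobayashiHyperbolic (zeroLocus F) ∧
      ∀ f : ℂ → PS n, HolOn f Set.univ → (∀ z, f z ∈ zeroLocus F) → ∀ z w, f z = f w := by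
  obtain ⟨F, h1, h2, h3⟩ := exists_smooth_brody hn hd
  refine ⟨F, ?_, h1, h2, kobayashi_of_brody h1 h3, fun f hf hX z w => ?_⟩
  · rintro rfl
    obtain ⟨i, hi⟩ := h2 (fun _ => 1) (fun h => one_ne_zero (congrFun h 0))
    simp at hi
  · by_contra hne
    refine h3 (nf f) ⟨nf_unit f, fun z => hf.holAt (Set.mem_univ z)⟩ ⟨z, w, fun h => hne ?_⟩
      fun z => eval_nf h1 (hX z)
    rw [proj_nf, proj_nf] at h
    exact eq_of_proj_eq h

end Pool.Agent.Work.MP_97b122_ag
end
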